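import Pool.Agent.MP_542436_nt.H96N.Spec
import Pool.Agent.MP_542436_nt.H39.AUXP

/-! The auxiliary polynomial, with bounds for the cofactor. -/

set_option autoImplicit false

namespace Pool.Agent.MP_542436_nt.H96N

open MvPolynomial
open Pool.Agent.MP_542436_nt.H39 (bx mem_bx card_bx)
open Pool.Agent.MP_542436_nt.H39.AUX

theorem rowAUX : RowAUX := by
  classical
  intro ρ G m Y d L ω S hm hd h0 hG hω hS hL hY
  have hP : l1 (ω ^ Y) ≤ (m : ℤ) ^ Y := l1_pow hω Y
  have hs : S.card ≤ d ^ ρ := (Finset.card_le_card hS).trans_eq (card_bx ρ d)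
  have hD : 1 ≤ d ^ ρ := Nat.one_le_pow _ _ hd
  have hU : (d - G * Y) ^ ρ ≤ d ^ ρ := Nat.pow_le_pow_left (Nat.sub_le _ _) _
  have cα : Fintype.card ↥(bx ρ d \ S) = d ^ ρ - S.card := by
    rw [Fintype.card_coe, Finset.card_sdiff_of_subset hS, card_bx]
  have cβ : Fintype.card ↥(bx ρ (d - G * Y)) = (d - G * Y) ^ ρ := by
    rw [Fintype.card_coe, card_bx]
  obtain ⟨e, he⟩ := Nat.exists_eq_add_of_le hs
  have he' : d ^ ρ - S.card = e := by omega
  have hlt : e < (d - G * Y) ^ ρ := by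
    by_contra hc
    have := Nat.mul_le_mul_left L (not_lt.1 hc)
    nlinarith
  obtain ⟨t, t0, t1, t2⟩ := siegel
    (Matrix.of fun (z : ↥(bx ρ d \ S)) (u : ↥(bx ρ (d - G * Y))) =>
      coeff z.1 (ω ^ Y * monomial u.1 1)) (m ^ Y) L (Nat.one_le_pow _ _ hm)
    (fun z u => by
      refine (coeff_le _ _).trans ((l1_mul _ _).trans ?_)
      have := mul_le_mul hP (l1_monomial u.1 1) (l1_nonneg _) (by positivity)
      simpa using this)
    (by rw [cα, cβ, he']; exact hlt) (by rw [cα, cβ, he']; nlinarith)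
  set H : MvPolynomial (Fin ρ) ℤ := ∑ u : ↥(bx ρ (d - G * Y)), monomial u.1 (t u) with hH
  have hc : ∀ u : ↥(bx ρ (d - G * Y)), coeff u.1 H = t u := fun u => by
    rw [hH, coeff_sum, Finset.sum_eq_single u (fun v _ hv => by
      rw [coeff_monomial, if_neg fun h => hv (Subtype.ext h)]) (by simp), coeff_monomial, if_pos rfl]
  have hb0 : ∀ v ∈ H.support, ∀ i, v i < d - G * Y := fun v hv i => by
    obtain ⟨u, -, hu⟩ := Finset.mem_biUnion.1 (support_sum hv)
    rw [Finset.mem_singleton.1 (support_monomial_subset hu)]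
    exact mem_bx.1 u.2 i
  have h1 : l1 H ≤ ((d - G * Y) ^ ρ * ((d - G * Y) ^ ρ * m ^ Y) ^ L : ℕ) := by
    refine (l1_sum _ _ _).trans ((Finset.sum_le_card_nsmul _ _ _ fun u _ => t2 u).trans_eq ?_)
    rw [Finset.card_univ, cβ, nsmul_eq_mul, Nat.cast_mul]
  have h2 : m ^ Y * ((d - G * Y) ^ ρ * ((d - G * Y) ^ ρ * m ^ Y) ^ L) ≤
      (d ^ ρ * m ^ Y) ^ (L + 2) :=
    calc _ = ((d - G * Y) ^ ρ * m ^ Y) ^ (L + 1) := by ring
      _ ≤ (d ^ ρ * m ^ Y) ^ (L + 1) := Nat.pow_le_pow_left (Nat.mul_le_mul_right _ hU) _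
      _ ≤ _ := Nat.pow_le_pow_right (Nat.mul_pos hD (Nat.one_le_pow _ _ hm)) (by omega)
  refine ⟨H, mul_ne_zero (pow_ne_zero _ h0) fun h => t0 (funext fun u => ?_), fun z hz => ?_, ?_,
    fun z hz => mem_bx.2 fun i => (hb0 z hz i).trans_le (Nat.sub_le _ _), h1.trans ?_⟩
  · rw [← hc, h]
    rfl
  · by_contra hn
    have hb : z ∈ bx ρ d := mem_bx.2 fun i => by
      have a1 : degreeOf i ω ≤ G := degreeOf_le_iff.2 fun z hz => hG z hz i
      have a2 : degreeOf i H ≤ d - G * Y - 1 := degreeOf_le_iff.2 fun v hv =>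
        Nat.le_sub_one_of_lt (hb0 v hv i)
      have a3 := (degreeOf_pow_le i ω Y).trans (Nat.mul_le_mul_left Y a1)
      have a4 := (monomial_le_degreeOf i hz).trans (degreeOf_mul_le i _ _)
      rw [mul_comm Y] at a3
      omega
    have h3 := congrFun t1 ⟨z, Finset.mem_sdiff.2 ⟨hb, hn⟩⟩
    refine mem_support_iff.1 hz (Eq.trans ?_ h3)
    rw [hH, Finset.mul_sum, coeff_sum]
    refine Finset.sum_congr rfl fun u _ => ?_
    change _ = coeff z (ω ^ Y * monomial u.1 1) * t u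
    rw [mul_comm _ (t u), ← coeff_C_mul, mul_left_comm, C_mul_monomial, mul_one]
  · refine (sum_le _ _).trans ((l1_mul _ _).trans
      ((mul_le_mul hP h1 (l1_nonneg _) (by positivity)).trans ?_))
    exact_mod_cast h2
  · exact_mod_cast (Nat.le_mul_of_pos_left _ (Nat.one_le_pow _ _ hm)).trans h2

end Pool.Agent.MP_542436_nt.H96N
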