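import Pool.Agent.MP_542436_nt.H96N.Spec

/-! Few primes of small norm. -/

set_option autoImplicit false

namespace Pool.Agent.MP_542436_nt.H96N

open NumberField IsDedekindDomain

theorem rowCNT : RowCNT := by
  classical
  intro K _ _ c ε hε
  have hF : {p : Pr K | Ideal.absNorm p.asIdeal ≤ ⌈Real.exp (c / ε)⌉₊}.Finite :=
    (Ideal.finite_setOfPred_absNorm_le (S := 𝓞 K) ⌈Real.exp (c / ε)⌉₊).preimage
      (f := fun p : Pr K => p.asIdeal) fun _ _ _ _ h => HeightOneSpectrum.ext h
  refine ⟨|c| * hF.toFinset.card, by positivity, fun S => ?_⟩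
  have h1 : ∀ p : Pr K, c ≤ ε * lN p + if p ∈ hF.toFinset then |c| else 0 := fun p => by
    have h0 : 0 ≤ lN p := Real.log_natCast_nonneg _
    split_ifs with h
    · linarith [le_abs_self c, mul_nonneg hε.le h0]
    · have h2 : Real.exp (c / ε) ≤ (Ideal.absNorm p.asIdeal : ℕ) :=
        (Nat.le_ceil _).trans (Nat.cast_le.2 (le_of_not_ge fun e => h (hF.mem_toFinset.2 e)))
      have h3 : c / ε ≤ lN p := (Real.le_log_iff_exp_le ((Real.exp_pos _).trans_le h2)).2 h2
      rw [div_le_iff₀ hε] at h3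
      linarith
  have h4 := Finset.sum_le_sum fun p (_ : p ∈ S) => h1 p
  rw [Finset.sum_const, nsmul_eq_mul, Finset.sum_add_distrib, ← Finset.mul_sum,
    ← Finset.sum_filter, Finset.sum_const, nsmul_eq_mul] at h4
  have h5 : ((S.filter (· ∈ hF.toFinset)).card : ℝ) ≤ hF.toFinset.card :=
    Nat.cast_le.2 (Finset.card_le_card fun p hp => (Finset.mem_filter.1 hp).2)
  nlinarith [abs_nonneg c]

end Pool.Agent.MP_542436_nt.H96N
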