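import Pool.Agent.MP_542436_nt.H96N.Spec

/-! Colouring a disc by small squares. -/

set_option autoImplicit false

namespace Pool.Agent.MP_542436_nt.H96N

theorem COLA.line {B r : ℝ} (hr : 0 < r) : ∃ c : ℝ → Fin (⌊4 * B / r⌋₊ + 1),
    ∀ t t' : ℝ, |t| ≤ B → |t'| ≤ B → c t = c t' → |t - t'| ≤ r / 2 := by
  refine ⟨fun t => ⟨min ⌊(t + B) * 2 / r⌋₊ ⌊4 * B / r⌋₊, by omega⟩, fun t t' h h' e => ?_⟩
  have k : ∀ t : ℝ, |t| ≤ B → 0 ≤ (t + B) * 2 / r ∧ ⌊(t + B) * 2 / r⌋₊ ≤ ⌊4 * B / r⌋₊ :=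
    fun t h => ⟨div_nonneg (by linarith [(abs_le.1 h).1]) hr.le, Nat.floor_le_floor
      (div_le_div_of_nonneg_right (by linarith [(abs_le.1 h).2]) hr.le)⟩
  have e := Fin.mk.inj_iff.1 e
  rw [min_eq_left (k t h).2, min_eq_left (k t' h').2] at e
  have a := Nat.floor_le (k t h).1
  have a' := Nat.floor_le (k t' h').1
  have b := Nat.lt_floor_add_one ((t + B) * 2 / r)
  have b' := Nat.lt_floor_add_one ((t' + B) * 2 / r)
  rw [e] at a b
  rw [le_div_iff₀ hr] at a a'
  rw [div_lt_iff₀ hr] at b b'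
  rw [abs_le]
  constructor <;> linarith

theorem rowCOLA : RowCOLA := by
  intro B r hB hr
  obtain ⟨c, hc⟩ := COLA.line (B := B) hr
  have p : 0 ≤ 4 * B / r := by positivity
  refine ⟨_, ?_, fun s => finProdFinEquiv (c s.re, c s.im), fun s s' h h' e => ?_⟩
  · have := Nat.floor_le p
    push_cast
    rw [← pow_two]
    gcongr
    norm_num
  · have e := Prod.mk.inj (finProdFinEquiv.injective e)
    have a := hc _ _ ((Complex.abs_re_le_norm s).trans h) ((Complex.abs_re_le_norm s').trans h') e.1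
    have b := hc _ _ ((Complex.abs_im_le_norm s).trans h) ((Complex.abs_im_le_norm s').trans h') e.2
    have := Complex.norm_le_abs_re_add_abs_im (s - s')
    rw [Complex.sub_re, Complex.sub_im] at this
    linarith

end Pool.Agent.MP_542436_nt.H96N
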