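import Pool.Agent.MP_542436_nt.H96N.Spec

/-! Colouring by residue classes. -/

set_option autoImplicit false

namespace Pool.Agent.MP_542436_nt.H96N

open NumberField IsDedekindDomain

namespace COLF

variable {K : Type} [Field K] [NumberField K]

theorem val_le_one (p : Pr K) {s : K} (h : FinitePlace.mk p s ≤ 1) : p.valuation K s ≤ 1 := by
  rw [FinitePlace.mk_apply, FinitePlace.norm_embedding'] at h
  exact (WithZeroMulInt.toNNReal_le_one_iff (HeightOneSpectrum.one_lt_absNorm_nnreal p)).1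
    (by exact_mod_cast h)

theorem le_of_val (p : Pr K) (j : ℕ) {s : K} (h : p.valuation K s ≤ WithZero.exp (-(j : ℤ))) :
    FinitePlace.mk p s ≤ Real.exp (-(j * lN p)) := by
  have h0 : (0 : ℝ) < (Ideal.absNorm p.asIdeal : ℕ) := by
    exact_mod_cast zero_lt_one.trans (HeightOneSpectrum.one_lt_absNorm p)
  have h1 := (WithZeroMulInt.toNNReal_strictMono
    (HeightOneSpectrum.one_lt_absNorm_nnreal p)).monotone h
  rw [WithZeroMulInt.toNNReal_neg_apply _ (WithZero.exp_ne_zero (a := -(j : ℤ)))] at h1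
  rw [FinitePlace.mk_apply, FinitePlace.norm_embedding', Real.exp_neg, Real.exp_nat_mul, lN,
    Real.exp_log h0]
  have h2 : Multiplicative.toAdd (WithZero.unzero (WithZero.exp_ne_zero (a := -(j : ℤ)))) =
      -(j : ℤ) := rfl
  rw [h2, zpow_neg, zpow_natCast] at h1
  exact_mod_cast h1

theorem apx (p : Pr K) (j : ℕ) (s : K) : ∃ o : 𝓞 K, FinitePlace.mk p s ≤ 1 →
    p.valuation K (algebraMap (𝓞 K) K o - s) ≤ WithZero.exp (-(j : ℤ)) := by
  by_cases h : FinitePlace.mk p s ≤ 1
  · obtain ⟨o, ho⟩ := p.exists_valuation_sub_lt_of_integer (val_le_one p h)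
      (Units.mk0 (WithZero.exp (-(j : ℤ))) WithZero.exp_ne_zero)
    exact ⟨o, fun _ => ho.le⟩
  · exact ⟨0, fun h' => absurd h' h⟩

end COLF

theorem rowCOLF : RowCOLF := by
  intro K _ _ T j
  choose o ho using fun (p : Pr K) (s : K) => COLF.apx p (j p) s
  have : ∀ p : T, Finite (𝓞 K ⧸ p.1.asIdeal ^ j p.1) := fun p =>
    Ideal.finiteQuotientOfFreeOfNeBot _ (pow_ne_zero _ p.1.ne_bot)
  refine ⟨Nat.card (∀ p : T, 𝓞 K ⧸ p.1.asIdeal ^ j p.1), ?_, fun s =>
    Finite.equivFin _ fun p : T => Ideal.Quotient.mk _ (o p.1 s), fun s s' hs e p hp => ?_⟩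
  · rw [Nat.card_pi, Real.exp_sum, Nat.cast_prod, ← Finset.prod_coe_sort T]
    refine le_of_eq (Finset.prod_congr rfl fun p _ => ?_)
    have h0 : (0 : ℝ) < (Ideal.absNorm p.1.asIdeal : ℕ) := by
      exact_mod_cast zero_lt_one.trans (HeightOneSpectrum.one_lt_absNorm p.1)
    rw [Real.exp_nat_mul, lN, Real.exp_log h0, ← Nat.cast_pow, ← map_pow, Ideal.absNorm_apply,
      Submodule.cardQuot_apply]
  · have e1 := congrFun ((Finite.equivFin _).injective e) ⟨p, hp⟩
    have e2 : p.valuation K (algebraMap (𝓞 K) K (o p s) - algebraMap (𝓞 K) K (o p s')) ≤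
        WithZero.exp (-(j p : ℤ)) := by
      rw [← map_sub]
      exact (p.valuation_of_algebraMap (K := K) _).trans_le
        ((p.intValuation_le_pow_iff_mem _ _).2 (Ideal.Quotient.eq.1 e1))
    refine COLF.le_of_val p (j p) ?_
    have e3 : s - s' = (algebraMap (𝓞 K) K (o p s) - algebraMap (𝓞 K) K (o p s')) -
        (algebraMap (𝓞 K) K (o p s) - s) + (algebraMap (𝓞 K) K (o p s') - s') := by ring
    rw [e3]
    exact Valuation.map_add_le _ (Valuation.map_sub_le _ e2 (ho p s (hs p hp).1))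
      (ho p s' (hs p hp).2)

end Pool.Agent.MP_542436_nt.H96N
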