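import Pool.Agent.MP_542436_nt.H96N.Spec
import Pool.Agent.MP_542436_nt.H39.CORE

/-! The contradiction with free parameters, at several places. -/

set_option autoImplicit false

namespace Pool.Agent.MP_542436_nt.H96N

open MvPolynomial Finset
open Pool.Agent.MP_542436_nt.H39 (bx ZP mem_bx card_bx)
open Pool.Agent.MP_542436_nt.H39.CORE (win size sum_bd)

namespace CORE

theorem size' {ρ d m Y L : ℕ} (hd : 1 ≤ d) (hm : 1 ≤ m) {t : Finset (Fin ρ →₀ ℕ)}
    (ht : t ⊆ bx ρ d) {ψ : (Fin ρ →₀ ℕ) → ℤ} (h : ∑ z ∈ t, |ψ z| ≤ (d ^ ρ * m ^ Y) ^ (L + 2))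
    (α : Fin ρ → ℕ) :
    ∑ z ∈ t, |((ψ z * ∏ j, ((z j).choose (α j) : ℤ) : ℤ) : ℝ)| ≤
      Real.exp ((L + 3) * (ρ * d + Y * m)) := by
  refine (size hd hm ht h α).trans (Real.exp_le_exp.2 ?_)
  have h1 : Real.log d ≤ d := Real.log_le_self (by positivity)
  have h2 : Real.log m ≤ m := Real.log_le_self (by positivity)
  have h3 : Real.log 2 ≤ 1 := by linarith [Real.log_two_lt_d9]
  have h4 : (0 : ℝ) ≤ Y * m := by positivity
  calc _ ≤ (L + 2 : ℝ) * (ρ * d + Y * m) + ρ * d * 1 := by gcongr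
    _ ≤ _ := by linarith

theorem zp {ρ δ g E : ℕ} (Z : ZP ρ δ g E) {K : Type} [Field K] [CharZero K] {N K' d ν : ℕ}
    {κ : Fin ρ → ℤ} (h : ℤ) (t : Finset (Fin ρ →₀ ℕ)) (θ : (Fin ρ →₀ ℕ) → K)
    (h1 : ∀ v : Fin ρ → ℤ, (∀ i, |v i| ≤ g) → (N : ℤ) ∣ ∑ i, v i * κ i → v = 0) (h2 : 1 ≤ N)
    (h3 : 1 ≤ d) (h4 : d ≤ δ * K') (h5 : 1 ≤ ν) (h6 : E * ν ≤ N) (h7 : E * ν ≤ K')
    (h8 : ∀ z ∈ t, (∀ i, z i ≤ d) ∧ ∃ w : ℕ, w ≤ ν ∧ (N : ℤ) ∣ ∑ i, (z i : ℤ) * κ i - h - w)
    (h9 : ∀ a : Fin ρ → ℕ, ∑ i, a i < K' → ∑ z ∈ t, θ z * ∏ i, ((z i).choose (a i) : K) = 0) :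
    ∀ z ∈ t, θ z = 0 := fun z hz => (Module.forall_dual_apply_eq_zero_iff ℚ _).1 fun φ => by
  refine Z N K' d ν κ h t (fun z => φ (θ z)) h1 h2 h3 h4 h5 h6 h7 h8 (fun a ha => ?_) z hz
  have := congrArg φ (h9 a ha)
  rw [map_sum, map_zero] at this
  refine (sum_congr rfl fun z _ => ?_).trans this
  rw [mul_comm, ← smul_eq_mul, ← map_smul, mul_comm, Algebra.smul_def]
  simp

end CORE

open CORE in
theorem rowCORE : H39.RowWIN → RowAUX → RowRAD → RowSPL → RowCORE := by
  intro WIN AUX RAD SPL K V P _ _ _ _ D x a b h T μ Y ρ δ g E G m N d K' ν L L₀ S κ₀ κ e ω ε err Λ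
    A Z ω0 ωG ωm m1 ωr hκ he ε0 hrel GY dK KY ν1 EN EK LN N1 cnt hS herr hΛ h1 h2
  have d1 : 1 ≤ d := by omega
  have N0 : (0 : ℝ) < N := by exact_mod_cast N1
  have N0' : (0 : ℤ) < N := by exact_mod_cast N1
  obtain ⟨W, W1, W2⟩ := win L ν
  obtain ⟨h0, t, hN, ht, tc, tw⟩ := WIN N _ (bx ρ d) (fun z => ∑ j, z j * κ j) W N1
    fun w hw => (W2 w hw).1.trans_le LN
  rw [W1, card_bx] at tc
  obtain ⟨H, H0, H1, H2, H3, H4⟩ := AUX ρ G m Y d L₀ ω t m1 d1 ω0 ωG ωm ht
    (Nat.le_of_mul_le_mul_right (cnt.trans (by nlinarith [Nat.mul_le_mul_left L₀ tc])) N1) GY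
  obtain ⟨w, s, hw⟩ : ∃ w s : (Fin ρ →₀ ℕ) → ℕ, ∀ z ∈ t, w z ∈ W ∧ s z ≤ 2 * S + 1 ∧
      ∑ j, (z j : ℤ) * κ j + N * s z = h0 + N * S + w z := by
    refine ⟨fun z => ((∑ j, z j * κ j - h0) % N).toNat,
      fun z => (S - (∑ j, z j * κ j - h0) / N).toNat, fun z hz => ⟨tw z hz, ?_⟩⟩
    have b1 : |∑ j, (z j : ℤ) * κ j| ≤ N * S := by
      have := (sum_bd (ht hz) (u := fun j => κ j) (c := κ₀) fun j => by exact_mod_cast hκ j).trans
        (show (ρ : ℝ) * d * κ₀ ≤ N * S by exact_mod_cast hS)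
      exact_mod_cast this
    beta_reduce
    generalize ∑ j, (z j : ℤ) * κ j = f at b1
    obtain ⟨b1, b2⟩ := abs_le.1 b1
    have hN' : (h0 : ℤ) < N := by exact_mod_cast hN
    have q1 : (f - h0) / N ≤ S := Int.ediv_le_of_le_mul N0' (by linarith [Int.natCast_nonneg h0])
    have q2 : -(S + 1 : ℤ) ≤ (f - h0) / N := Int.le_ediv_of_mul_le N0' (by linarith)
    refine ⟨by omega, ?_⟩
    rw [Int.toNat_of_nonneg (sub_nonneg.2 q1), Int.toNat_of_nonneg (Int.emod_nonneg _ N0'.ne')]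
    linear_combination -Int.mul_ediv_add_emod (f - h0) N
  set F : (Fin ρ →₀ ℕ) → P → ℤ := fun z p => ∑ j, z j * e j p + s z * x p with hF
  have Lm : 0 ≤ D.Lam := sum_nonneg fun v _ => D.lam_nonneg v
  have ab : a / b ≠ 0 := div_ne_zero A.a0 A.b0
  have hl : ∀ v ∈ T, |D.lg v (D.pw x)| ≤ 1 + D.hv a b v := fun v hv =>
    (D.lg_le A.a0 A.b0 x v).trans (add_le_add_left (A.unit v hv) _)
  obtain ⟨R, hR⟩ : ∃ R : ℝ, R = ρ * d + Y * m := ⟨_, rfl⟩
  obtain ⟨η, hη⟩ : ∃ η : ℝ, η = ρ * d * ε := ⟨_, rfl⟩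
  have R0 : 0 ≤ R := by rw [hR]; positivity
  have η0 : 0 ≤ η := by rw [hη]; positivity
  have KY' : (0 : ℝ) ≤ Y - K' := sub_nonneg.2 (by exact_mod_cast KY)
  have h0' : 0 ≤ h := zero_le_one.trans A.one
  rw [← hR, ← hη] at herr
  have e1 : (0 : ℝ) ≤ Fintype.card V * R := by positivity
  have e2 : (0 : ℝ) ≤ Fintype.card V * (L₀ * R) := by positivity
  have e3 : (0 : ℝ) ≤ Fintype.card V * S := by positivity
  have e4 : (0 : ℝ) ≤ S * h := by positivity
  have e5 : (0 : ℝ) ≤ η * D.Lam := by positivity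
  have e6 : (0 : ℝ) ≤ Fintype.card V := by positivity
  have key : ∀ α : Fin ρ → ℕ, ∑ j, α j < K' → ∀ i : ℕ,
      ∑ z ∈ t with w z ≤ (2 * i + 1) * ν,
        ((coeff z (ω ^ Y * H) * ∏ j, ((z j).choose (α j) : ℤ) : ℤ) : K) *
          ((a / b) ^ s z * D.pw (F z)) = 0 := fun α hα i => by
    have Tm : D.Trm t x a b (fun z => coeff z (ω ^ Y * H) * ∏ j, ((z j).choose (α j) : ℤ)) s F
        (fun z => (h0 + N * S + w z) / N) (2 * S + 1) h ((L₀ + 3) * R) η :=
      ⟨A.ha, A.hb, A.a0, A.b0, A.sh, by positivity,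
        hR ▸ size' d1 m1 ht (by exact_mod_cast H2) α,
        fun z hz => (hw z hz).2.1, η0, fun z hz p => by
          have a1 : (∑ j, (z j : ℝ) * κ j + N * s z) = h0 + N * S + w z := by
            exact_mod_cast (hw z hz).2.2
          refine le_of_eq_of_le (congrArg _ ?_) (hη ▸ sum_bd (ht hz) fun j => he j p)
          simp only [hF, ← a1, mul_sub, sum_sub_distrib, div_mul_eq_mul_div, ← mul_div_assoc,
            ← mul_assoc, ← sum_div, ← sum_mul]
          push_cast
          field_simp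
          ring⟩
    have V1 := SPL.van K V P _ D t x a b _ s F _ _ h _ _ ((h0 + N * S) / N) (2 * L * ν / N) T
      (fun v => -((Y - K') * μ v) + (L₀ + 5) * R + 6 * S + 3 + 2 * S * D.hv a b v +
        2 * η * D.lam v) Tm (by positivity) (fun z hz => by
        have : (w z : ℝ) ≤ 2 * L * ν := by exact_mod_cast (W2 _ (hw z hz).1).1.le
        rw [← add_div]
        constructor <;> gcongr ?_ / _ <;> linarith [Nat.cast_nonneg (α := ℝ) (w z)])
      (fun v hv => by
        have p1 := D.hv_nonneg a b v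
        have p2 := D.lam_nonneg v
        have p3 : ∀ j, D.av v (D.pw (e j)) ≤
            Real.exp (κ₀ / N * (1 + D.hv a b v) + ε * D.lam v) := fun j => by
          rw [← D.exp_lg v (D.pw_ne _), Real.exp_le_exp]
          have q1 := (abs_le.1 (D.near (he j) v)).2
          have q2 : κ j / N * D.lg v (D.pw x) ≤ κ₀ / N * (1 + D.hv a b v) := by
            refine (le_abs_self _).trans ?_
            rw [abs_mul, abs_div, Nat.abs_cast]
            have : |(κ j : ℝ)| ≤ κ₀ := by exact_mod_cast hκ j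
            have := hl v hv
            gcongr
          linarith
        have p4 : 0 ≤ κ₀ / N * (1 + D.hv a b v) + ε * D.lam v := by positivity
        have R1 := RAD K (D.av v) ρ Y G m d (2 * S + 1) ω H _ (a / b * D.pw x) t s α _ (μ v)
          ((L₀ + 3) * R) p4 (A.pos v hv) p3 ωG ωm (ωr v hv _ p4 p3) (A.apx v hv) (by
            rw [← D.exp_lg v (mul_ne_zero ab (D.pw_ne _)), Real.exp_le_exp]
            exact (abs_le.1 (A.unit v hv)).2) GY.le H1 ht H3
          (by simpa [hR] using size' d1 m1 H3 (by exact_mod_cast H4) 0)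
          (by simpa [hR] using size' d1 m1 ht (by exact_mod_cast H2) 0) fun z hz => (hw z hz).2.1
        refine le_of_eq_of_le (congrArg _ (by
          simp only [hF, D.pw_comb, mul_pow, mul_assoc])) (R1.trans (Real.exp_le_exp.2 ?_))
        have q1 : (Y - K' : ℝ) * μ v ≤ (Y - ∑ j, (α j : ℝ)) * μ v :=
          mul_le_mul_of_nonneg_right (sub_le_sub_left (by exact_mod_cast hα.le) _) (A.pos v hv)
        have q2 : (ρ * d * (κ₀ / N) : ℝ) ≤ S := by
          rw [← mul_div_assoc, div_le_iff₀ N0, mul_comm (S : ℝ)]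
          exact_mod_cast hS
        have q3 := mul_le_mul_of_nonneg_right q2 (add_nonneg zero_le_one p1)
        have q4 : (0 : ℝ) ≤ Y * m := by positivity
        push_cast
        rw [hR, hη]
        linarith)
      (by
        have q1 : |((h0 + N * S) / N : ℝ)| ≤ S + 1 := by
          have : (h0 : ℝ) ≤ N := by exact_mod_cast hN.le
          rw [abs_of_nonneg (by positivity), div_le_iff₀ N0]
          linarith
        have q2 : ∑ v ∈ T, (|((h0 + N * S) / N : ℝ)| * |D.lg v (D.pw x)| +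
            (-((Y - K') * μ v) + (L₀ + 5) * R + 6 * S + 3 + 2 * S * D.hv a b v +
              2 * η * D.lam v)) ≤ ∑ v ∈ T, (-((Y - K') * μ v) + (((L₀ + 5) * R + 7 * S + 4) +
              (3 * S + 1) * D.hv a b v + 2 * η * D.lam v)) := sum_le_sum fun v hv => by
          have := mul_le_mul q1 (hl v hv) (abs_nonneg _) (by positivity)
          linarith
        have q3 : ∑ v ∈ T, (((L₀ + 5) * R + 7 * S + 4) + (3 * S + 1) * D.hv a b v +
            2 * η * D.lam v) ≤ ∑ v, (((L₀ + 5) * R + 7 * S + 4) + (3 * S + 1) * D.hv a b v +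
            2 * η * D.lam v) := sum_le_sum_of_subset_of_nonneg (subset_univ _) fun v _ _ => by
          have p1 := D.hv_nonneg a b v
          have p2 := D.lam_nonneg v
          positivity
        rw [sum_add_distrib (f := fun v => -((Y - K') * μ v)), sum_neg_distrib, ← mul_sum] at q2
        rw [sum_add_distrib (s := univ), sum_add_distrib (s := univ), ← mul_sum, ← mul_sum,
          sum_const, card_univ, nsmul_eq_mul] at q3
        have q4 := mul_le_mul_of_nonneg_left hΛ KY'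
        have q5 := mul_le_mul_of_nonneg_left A.sh (show (0 : ℝ) ≤ 3 * S + 1 by positivity)
        have q6 : ∑ v, D.lam v = D.Lam := rfl
        rw [q6] at q3
        push_cast
        linarith)
    have U := SPL.spl K V P _ D t x a b _ s F _ _ h _ _
      ((h0 + N * S + ((2 * i + 1) * ν : ℕ)) / N) (ν / N) Tm (fun z hz => by
        rcases (W2 _ (hw z hz).1).2 i with c | c
        · exact .inl (by gcongr)
        · refine .inr ?_
          have : ((2 * i + 2) * ν : ℝ) ≤ w z := by exact_mod_cast c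
          rw [← add_div]
          gcongr ?_ / _
          push_cast
          linarith) V1 (by push_cast; linarith)
    simpa only [div_le_div_iff_of_pos_right N0, add_le_add_iff_left, Nat.cast_le] using U
  have fin : ∀ i : ℕ, ∀ z ∈ t, w z < 2 * i * ν → coeff z (ω ^ Y * H) = 0 := by
    intro i
    induction i with
    | zero => simp
    | succ i ih =>
      intro z hz c
      by_cases c1 : w z < 2 * i * ν
      · exact ih z hz c1
      have := zp Z (h0 + 2 * i * ν)
        (t.filter fun z => w z ≤ (2 * i + 1) * ν ∧ 2 * i * ν ≤ w z)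
        (fun z => ((coeff z (ω ^ Y * H) : ℤ) : K) * ((a / b) ^ s z * D.pw (F z))) hrel N1 d1 dK ν1
        EN EK (fun z hz => ?_) (fun α hα => ?_) z (mem_filter.2 ⟨hz, ?_, not_lt.1 c1⟩)
      · exact Int.cast_eq_zero.1 ((mul_eq_zero.1 this).resolve_right
          (mul_ne_zero (pow_ne_zero _ ab) (D.pw_ne _)))
      · obtain ⟨z1, z2, z3⟩ := mem_filter.1 hz
        refine ⟨fun j => (mem_bx.1 (ht z1) j).le, w z - 2 * i * ν, by
          rw [add_mul] at z2; omega, S - s z, ?_⟩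
        push_cast [Nat.cast_sub z3]
        linear_combination (hw z z1).2.2
      · rw [← key α hα i, ← filter_filter, sum_filter]
        refine sum_congr rfl fun z hz => ?_
        split_ifs with c2
        · push_cast
          ring
        · simp [ih z (mem_filter.1 hz).1 (not_le.1 c2)]
      · exact ((W2 _ (hw z hz).1).2 i).resolve_right (not_le.2 (by rwa [mul_add 2] at c))
  refine H0 (MvPolynomial.ext _ _ fun z => ?_)
  by_contra c
  exact c (fin (w z + 1) z (H1 (mem_support_iff.2 c)) (by nlinarith))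

end Pool.Agent.MP_542436_nt.H96N
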