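import Pool.Agent.MP_542436_nt.H96N.Spec

/-! Decomposition of a power of a number into units, generators and a small fraction. -/

set_option autoImplicit false

namespace Pool.Agent.MP_542436_nt.H96N

open NumberField IsDedekindDomain

namespace DEC

variable {K : Type} [Field K] [NumberField K]

/-- the norm -/
noncomputable def N (p : Pr K) : ℝ := (Ideal.absNorm p.asIdeal : ℕ)

theorem N_gt (p : Pr K) : 1 < N p := by
  unfold N
  exact_mod_cast NumberField.HeightOneSpectrum.one_lt_absNorm p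

theorem lN_pos (p : Pr K) : 0 < lN p := Real.log_pos (N_gt p)

theorem ord (p : Pr K) {x : K} (hx : x ≠ 0) : ∃ o : ℤ, FinitePlace.mk p x = N p ^ o := by
  rw [FinitePlace.mk_apply, FinitePlace.norm_embedding',
    WithZeroMulInt.toNNReal_neg_apply _ ((p.valuation K).ne_zero_iff.2 hx)]
  exact ⟨_, by push_cast; rfl⟩

theorem gen_self {p : Pr K} {g : 𝓞 K} {h : ℕ} (hg : Ideal.span {g} = p.asIdeal ^ h) :
    g ≠ 0 ∧ FinitePlace.mk p (g : K) = (N p ^ h)⁻¹ := by
  have g0 : g ≠ 0 := fun h0 => pow_ne_zero h p.ne_bot (by rw [← hg, h0]; simp)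
  have h1 := (FinitePlace.mk p).apply_mul_absNorm_pow_eq_one g0
  rw [FinitePlace.maximalIdeal_mk, hg, multiplicity_pow_self p.ne_bot p.prime.not_isUnit] at h1
  exact ⟨g0, eq_inv_of_mul_eq_one_left h1⟩

theorem gen_ne {p q : Pr K} {g : 𝓞 K} {h : ℕ} (hg : Ideal.span {g} = p.asIdeal ^ h) (hq : q ≠ p) :
    FinitePlace.mk q (g : K) = 1 := by
  refine (FinitePlace.norm_eq_one_iff_notMem K q g).2 fun hm => hq ?_
  rw [← Ideal.span_singleton_le_iff_mem, hg] at hm
  exact (HeightOneSpectrum.ext (p.isMaximal.eq_of_le q.isPrime.ne_top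
    (Ideal.IsPrime.le_of_pow_le hm))).symm

theorem int_le (p : Pr K) (g : 𝓞 K) : FinitePlace.mk p (g : K) ≤ 1 := FinitePlace.norm_le_one K p g

theorem int_of {z : K} (h : ∀ p : Pr K, FinitePlace.mk p z = 1) : ∃ g : 𝓞 K, (g : K) = z := by
  refine HeightOneSpectrum.mem_integers_of_valuation_le_one K z fun p => ?_
  have h1 := (h p).le
  rw [FinitePlace.mk_apply, FinitePlace.norm_embedding'] at h1
  exact (WithZeroMulInt.toNNReal_le_one_iff
    (NumberField.HeightOneSpectrum.one_lt_absNorm_nnreal p)).1 (by exact_mod_cast h1)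

theorem unit_of {z : K} (hz : z ≠ 0) (h : ∀ p : Pr K, FinitePlace.mk p z = 1) :
    ∃ u : (𝓞 K)ˣ, ((u : 𝓞 K) : K) = z := by
  obtain ⟨g, hg⟩ := int_of h
  obtain ⟨g', hg'⟩ := int_of (z := z⁻¹) fun p => by rw [map_inv₀, h, inv_one]
  refine ⟨Units.mkOfMulEqOne g g' (RingOfIntegers.ext ?_), hg⟩
  change (g : K) * (g' : K) = 1
  rw [hg, hg', mul_inv_cancel₀ hz]

theorem unit_abs (p : Pr K) (u : (𝓞 K)ˣ) : FinitePlace.mk p ((u : 𝓞 K) : K) = 1 :=
  (FinitePlace.norm_eq_one_iff_notMem K p _).2 fun h =>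
    p.isPrime.ne_top (Ideal.eq_top_of_isUnit_mem _ h u.isUnit)

theorem unit_pow (u : (𝓞 K)ˣ) : ∃ y : Fin (Units.rank K) → ℤ,
    ((u : 𝓞 K) : K) ^ Units.torsionOrder K = ∏ i, ((Units.fundSystem K i : 𝓞 K) : K) ^ y i := by
  obtain ⟨⟨ζ, y⟩, rfl, -⟩ := Units.exist_unique_eq_mul_prod K u
  refine ⟨fun i => y i * Units.torsionOrder K, ?_⟩
  have h1 : (ζ : (𝓞 K)ˣ) ^ Units.torsionOrder K = 1 := by
    rw [← Subgroup.coe_pow, Units.torsionOrder, pow_card_eq_one', Subgroup.coe_one]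
  have h2 := congrArg (fun v : (𝓞 K)ˣ => ((v : 𝓞 K) : K)) (mul_pow (ζ : (𝓞 K)ˣ)
    (∏ i, Units.fundSystem K i ^ y i) (Units.torsionOrder K))
  rw [h1, one_mul] at h2
  simp only [Units.coe_coe, Units.coe_pow] at h2 ⊢
  rw [h2, ← Units.coe_coe, Units.coe_prod, RingOfIntegers.coe_eq_algebraMap, map_prod,
    ← Finset.prod_pow]
  refine Finset.prod_congr rfl fun i _ => ?_
  rw [zpow_mul, zpow_natCast, ← Units.coe_zpow]

omit [NumberField K] in
theorem log_prod_le {ι : Type} (t : Finset ι) (φ : K →+* ℂ) (g : ι → K) (n : ι → ℕ) (b : ι → ℝ)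
    (hg : ∀ i, g i ≠ 0) (hb : ∀ i, |Real.log ‖φ (g i)‖| ≤ b i) :
    |Real.log ‖φ (∏ i ∈ t, g i ^ n i)‖| ≤ ∑ i ∈ t, n i * b i := by
  rw [map_prod, norm_prod, Real.log_prod fun i _ => by simp [hg i]]
  refine (Finset.abs_sum_le_sum_abs _ _).trans (Finset.sum_le_sum fun i _ => ?_)
  rw [map_pow, norm_pow, Real.log_pow, abs_mul, Nat.abs_cast]
  exact mul_le_mul_of_nonneg_left (hb i) (n i).cast_nonneg

end DEC

open DEC in
theorem rowDEC : RowGEN → RowDEC := by
  classical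
  intro hG K _ _
  obtain ⟨h, c₀, h0, hπ⟩ := hG K
  choose g hg hc using hπ
  have g0 : ∀ p, (g p : K) ≠ 0 := fun p => RingOfIntegers.coe_ne_zero_iff.2 (gen_self (hg p)).1
  obtain ⟨w, hw⟩ : ∃ w, w = Units.torsionOrder K := ⟨_, rfl⟩
  let η : Fin (Units.rank K) → K := fun i => ((Units.fundSystem K i : 𝓞 K) : K)
  have η0 : ∀ i, η i ≠ 0 := fun i => Units.coe_ne_zero _
  obtain ⟨B, B0, hB⟩ : ∃ B : ℝ, 0 ≤ B ∧ ∀ i (φ : K →+* ℂ), |Real.log ‖φ (η i)‖| ≤ B :=
    ⟨∑ z : Fin (Units.rank K) × (K →+* ℂ), |Real.log ‖z.2 (η z.1)‖|, by positivity, fun i φ =>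
      Finset.single_le_sum (f := fun z : Fin (Units.rank K) × (K →+* ℂ) =>
        |Real.log ‖z.2 (η z.1)‖|) (fun _ _ => abs_nonneg _) (Finset.mem_univ (i, φ))⟩
  have c0 := abs_nonneg c₀
  have c1 : 0 ≤ |c₀| * w := by positivity
  have c2 : (0 : ℝ) ≤ h := by positivity
  have hc' : ∀ p (φ : K →+* ℂ), |Real.log ‖φ (g p)‖| ≤ |c₀| * lN p := fun p φ =>
    (hc p φ).trans (mul_le_mul_of_nonneg_right (le_abs_self _) (lN_pos p).le)
  refine ⟨h * w, Units.rank K, 1 + |c₀| * w + |c₀| + h + B, fun i => Units.mk0 _ (η0 i),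
    fun p => Units.mk0 _ (g0 p), Nat.mul_pos h0 (hw ▸ Units.torsionOrder_pos K), by linarith,
    fun i p => unit_abs p _, fun i φ => (hB i φ).trans (by linarith),
    fun p q hq => gen_ne (hg p) hq, fun p => ⟨?_, fun φ => (hc' p φ).trans
      (mul_le_mul_of_nonneg_right (by linarith) (lN_pos p).le)⟩, fun x S D hx hD => ?_⟩
  · rw [Units.val_mk0, (gen_self (hg p)).2, Real.log_inv, abs_neg, Real.log_pow]
    exact (abs_of_nonneg (mul_nonneg c2 (lN_pos p).le)).trans_le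
      (mul_le_mul_of_nonneg_right (by linarith) (lN_pos p).le)
  choose o ho using fun p : Pr K => ord p hx
  have o0 : ∀ p, FinitePlace.mk p x = 1 → o p = 0 := fun p hp =>
    (zpow_eq_one_iff_right₀ (zero_le_one.trans (N_gt p).le) (N_gt p).ne').1 (ho p ▸ hp)
  obtain ⟨V, hS, hV⟩ : ∃ V : Finset (Pr K), S ⊆ V ∧ ∀ p ∉ V, FinitePlace.mk p x = 1 := by
    have h1 := (FinitePlace.hasFiniteMulSupport hx).preimage
      (f := fun p : Pr K => FinitePlace.mk p) fun _ _ _ _ => FinitePlace.mk_eq_iff.1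
    exact ⟨S ∪ h1.toFinset, Finset.subset_union_left, fun p hp => by
      by_contra h2
      exact hp (Finset.mem_union_right _ (h1.mem_toFinset.2 h2))⟩
  obtain ⟨u, hu⟩ := unit_of (z := x ^ h * ∏ p ∈ V, (g p : K) ^ o p)
    (mul_ne_zero (pow_ne_zero _ hx) (Finset.prod_ne_zero_iff.2 fun p _ => zpow_ne_zero _ (g0 p)))
    fun q => by
      rw [map_mul, map_pow, map_prod, Finset.prod_eq_single q
        (fun p _ hp => by rw [map_zpow₀, gen_ne (hg p) hp.symm, one_zpow])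
        fun hq => by rw [o0 q (hV q hq), zpow_zero, map_one]]
      rw [map_zpow₀, (gen_self (hg q)).2, ho, inv_zpow, ← zpow_natCast, ← zpow_natCast, ← zpow_mul,
        ← zpow_mul, mul_comm (o q)]
      exact mul_inv_cancel₀ (zpow_ne_zero _ (zero_lt_one.trans (N_gt q)).ne')
  obtain ⟨y, hy⟩ := unit_pow u
  have A0 : ∀ n : Pr K → ℕ, ∏ p ∈ V \ S, (g p : K) ^ n p ≠ 0 := fun n =>
    Finset.prod_ne_zero_iff.2 fun p _ => pow_ne_zero _ (g0 p)
  have A1 : ∀ (n : Pr K → ℕ) (q : Pr K), FinitePlace.mk q (∏ p ∈ V \ S, (g p : K) ^ n p) ≤ 1 :=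
    fun n q => by
      rw [map_prod]
      exact Finset.prod_le_one (fun _ _ => apply_nonneg _ _) fun p _ => by
        rw [map_pow]
        exact pow_le_one₀ (apply_nonneg _ _) (int_le q _)
  have A2 : ∀ (n : Pr K → ℕ) (q : Pr K), (o q = 0 → n q = 0) → q ∈ S ∨ FinitePlace.mk q x = 1 →
      FinitePlace.mk q (∏ p ∈ V \ S, (g p : K) ^ n p) = 1 := fun n q hn hq => by
    rw [map_prod]
    refine Finset.prod_eq_one fun p hp => ?_
    obtain rfl | hp' := eq_or_ne q p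
    · rw [hn (o0 q (hq.resolve_left (Finset.mem_sdiff.1 hp).2)), pow_zero, map_one]
    · rw [map_pow, gen_ne (hg p) hp', one_pow]
  refine ⟨∏ p ∈ V \ S, (g p : K) ^ (-(o p * w)).toNat, ∏ p ∈ V \ S, (g p : K) ^ (o p * w).toNat,
    y, fun p => -(o p * w), A0 _, A0 _, ?_, fun q => ⟨A1 _ q, A1 _ q⟩, fun q hq =>
      ⟨A2 _ q (fun h => by simp [h]) hq, A2 _ q (fun h => by simp [h]) hq⟩, fun φ => ?_⟩
  · simp only [Units.val_mul, Units.coe_prod, Units.val_zpow_eq_zpow_val, Units.val_mk0]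
    have h1 : (∏ p ∈ V \ S, (g p : K) ^ (-(o p * w)).toNat) /
        ∏ p ∈ V \ S, (g p : K) ^ (o p * w).toNat = ∏ p ∈ V \ S, (g p : K) ^ (-(o p * w)) := by
      rw [← Finset.prod_div_distrib]
      refine Finset.prod_congr rfl fun p _ => ?_
      rw [← zpow_natCast, ← zpow_natCast, ← zpow_sub₀ (g0 p)]
      congr 1
      omega
    rw [h1, mul_left_comm, Finset.prod_sdiff hS, ← hy, hu, ← hw, mul_pow, ← pow_mul, mul_assoc,
      ← Finset.prod_pow, ← Finset.prod_mul_distrib, Finset.prod_eq_one, mul_one]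
    intro p _
    rw [← zpow_natCast, ← zpow_mul, ← zpow_add₀ (g0 p), add_neg_cancel, zpow_zero]
  · have D0 : 0 ≤ D := by simpa using hD ∅ (Finset.disjoint_empty_left _)
    have h1 := hD _ (Finset.sdiff_disjoint (s := S) (t := V))
    refine (add_le_add (log_prod_le _ φ _ _ _ g0 fun p => hc' p φ)
      (log_prod_le _ φ _ _ _ g0 fun p => hc' p φ)).trans ?_
    refine le_trans ?_ ((mul_le_mul_of_nonneg_left h1 c1).trans
      (mul_le_mul_of_nonneg_right (by linarith) D0))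
    rw [← Finset.sum_add_distrib, Finset.mul_sum]
    refine Finset.sum_le_sum fun p _ => le_of_eq ?_
    have h2 : (((-(o p * w)).toNat : ℝ) + (o p * w).toNat) = |(o p : ℝ)| * w := by
      have h3 : (((-(o p * w)).toNat : ℤ) + (o p * w).toNat) = |o p * w| := by
        rcases abs_cases (o p * w) with h | h <;> omega
      rw [abs_mul, Nat.abs_cast] at h3
      exact_mod_cast h3
    rw [← add_mul, h2, ho, Real.log_zpow, abs_mul, show |Real.log (N p)| = lN p from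
      abs_of_pos (lN_pos p)]
    ring

end Pool.Agent.MP_542436_nt.H96N
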