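import Pool.Agent.MP_542436_nt.H96N.Spec

/-! The last step: the choice of the places at which the number is close to one. -/

set_option autoImplicit false

namespace Pool.Agent.MP_542436_nt.H96N.FIN

open NumberField IsDedekindDomain

variable {K : Type} [Field K] [NumberField K]

theorem lN_pos (p : Pr K) : 0 < lN p :=
  Real.log_pos (by exact_mod_cast NumberField.HeightOneSpectrum.one_lt_absNorm p)

theorem fin_one (w : FinitePlace K) {x : K} (h : w (x - 1) < 1) : w x = 1 := by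
  have h1 := w.add_le (x - 1) 1
  have h2 := w.add_le x (-(x - 1))
  rw [sub_add_cancel, map_one] at h1
  rw [map_neg_eq_map, show x + -(x - 1) = 1 by ring, map_one] at h2
  rcases le_max_iff.1 h2 with h3 | h3
  · exact le_antisymm (h1.trans (max_le h.le le_rfl)) h3
  · linarith

theorem fin_pow (w : FinitePlace K) {x : K} (h : w x = 1) (H : ℕ) :
    w (x ^ H - 1) ≤ w (x - 1) := by
  induction H with
  | zero => simp
  | succ n ih =>
    have h1 := w.add_le (x * (x ^ n - 1)) (x - 1)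
    rw [show x * (x ^ n - 1) + (x - 1) = x ^ (n + 1) - 1 by ring, map_mul, h, one_mul] at h1
    exact h1.trans (max_le ih le_rfl)

theorem arch_pow {z : ℂ} (h : ‖z - 1‖ ≤ 1) (H : ℕ) : ‖z ^ H - 1‖ ≤ (2 ^ H - 1) * ‖z - 1‖ := by
  induction H with
  | zero => simp
  | succ n ih =>
    have h1 := norm_add_le (z * (z ^ n - 1)) (z - 1)
    have h2 := norm_add_le (z - 1) 1
    rw [sub_add_cancel, norm_one] at h2
    rw [show z * (z ^ n - 1) + (z - 1) = z ^ (n + 1) - 1 by ring, norm_mul] at h1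
    have h3 : ‖z‖ * ‖z ^ n - 1‖ ≤ 2 * ‖z ^ n - 1‖ := by gcongr; linarith
    rw [pow_succ (2 : ℝ)]
    linarith

theorem log_near {w : ℂ} (h : ‖w - 1‖ ≤ 1 / 2) : |Real.log ‖w‖| ≤ 1 := by
  have h1 := abs_norm_sub_norm_le w 1
  rw [norm_one, abs_le] at h1
  have h2 : 0 < ‖w‖ := by linarith [h1.1]
  have h3 := Real.log_le_sub_one_of_pos h2
  have h4 := Real.one_sub_inv_le_log_of_pos h2
  have h5 : ‖w‖⁻¹ ≤ 2 := by
    rw [inv_le_comm₀ h2 two_pos]
    linarith [h1.1]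
  exact abs_le.2 ⟨by linarith, by linarith [h1.2]⟩

theorem floor_bd {X L : ℝ} (hL : 0 < L) (h : L ≤ X) :
    ∃ Y : ℕ, 1 ≤ (Y : ℝ) ∧ Y * L ≤ X ∧ X ≤ 2 * (Y * L) := by
  have h1 : 1 ≤ X / L := (one_le_div hL).2 h
  have h2 : (1 : ℝ) ≤ ⌊X / L⌋₊ := by exact_mod_cast (Nat.one_le_floor_iff _).2 h1
  have h3 := (le_div_iff₀ hL).1 (Nat.floor_le (zero_le_one.trans h1))
  have h4 := (div_lt_iff₀ hL).1 (Nat.lt_floor_add_one (X / L))
  exact ⟨_, h2, h3, by nlinarith⟩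

/-- the data of an approximation -/
def Dt (H u : ℕ) (x : K) (S : Finset (Pr K)) (Λ X : ℝ) : Prop :=
  ∃ (T : Finset (Pl K S)) (μ : Pl K S → ℝ) (Y : ℕ),
    (∀ v ∈ T, 0 ≤ μ v ∧ av S v (x ^ H - 1) ≤ Real.exp (-(Y * μ v)) ∧
      |Real.log (av S v (x ^ H))| ≤ 1) ∧
    (∀ p : S, Sum.inr p ∈ T → FinitePlace.mk p.1 x = 1) ∧ Λ ≤ ∑ v ∈ T, μ v ∧
    (∀ B : ℝ, 1 ≤ B → ∃ q : ℕ, (q : ℝ) ≤ B ^ 2 * Real.exp (u * Λ) ∧ ∃ col : K → Fin q,
      ∀ s s' : K, (∀ v ∈ T, Sm B s v ∧ Sm B s' v) → col s = col s' →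
        ∀ v ∈ T, av S v (s - s') ≤ Real.exp (-μ v)) ∧ X ≤ u * Y * Λ ∧ Y * Λ ≤ u * X

omit [NumberField K] in
theorem exp_max {f : AbsoluteValue K ℝ} {y : K} (hy : y ≠ 0) (h : f y ≤ 1) :
    Real.exp (-max (Real.log (f y⁻¹)) 0) = f y := by
  have h1 := f.pos hy
  rw [map_inv₀, Real.log_inv, max_eq_left (by linarith [Real.log_nonpos h1.le h]), neg_neg,
    Real.exp_log h1]

theorem finCase (hF : RowCOLF) {H u : ℕ} {x : K} {S : Finset (Pr K)} {Λ X : ℝ} (hx : x - 1 ≠ 0)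
    (hu : (20 : ℝ) ≤ u) (hΛ : 1 ≤ Λ) (hl : ∑ p ∈ S, lN p ≤ Λ) (hX : 8 * Λ ≤ X)
    (lo : X / 2 ≤ ∑ p ∈ S, max (Real.log (FinitePlace.mk p (x - 1)⁻¹)) 0)
    (hi : ∑ p ∈ S, max (Real.log (FinitePlace.mk p (x - 1)⁻¹)) 0 ≤ 5 / 4 * X) :
    Dt H u x S Λ X := by
  classical
  obtain ⟨Y, h1, h2, h3⟩ := floor_bd (by linarith) hX
  have hY : (0 : ℝ) < Y := by linarith
  obtain ⟨m, hm⟩ : ∃ m : Pr K → ℝ, m = fun p => max (Real.log (FinitePlace.mk p (x - 1)⁻¹)) 0 :=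
    ⟨_, rfl⟩
  rw [← hm] at lo hi
  have m0 : ∀ p, 0 ≤ m p := fun p => hm ▸ le_max_right _ _
  have m1 : ∀ p, ¬FinitePlace.mk p (x - 1) < 1 → m p = 0 := fun p hp => by
    rw [hm]
    simp only [map_inv₀, Real.log_inv]
    exact max_eq_right (by linarith [Real.log_nonneg (not_lt.1 hp)])
  obtain ⟨j, hj⟩ : ∃ j : Pr K → ℕ, ∀ p, j p = ⌊m p / (Y * lN p)⌋₊ := ⟨_, fun _ => rfl⟩
  have j1 : ∀ p, Y * (j p * lN p) ≤ m p := fun p => by
    have h := mul_pos hY (lN_pos p)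
    have := (le_div_iff₀ h).1 (Nat.floor_le (div_nonneg (m0 p) h.le))
    rw [hj]
    linarith
  have j2 : ∀ p, m p ≤ Y * (j p * lN p) + Y * lN p := fun p => by
    have := (div_lt_iff₀ (mul_pos hY (lN_pos p))).1 (Nat.lt_floor_add_one (m p / (Y * lN p)))
    rw [hj]
    linarith
  have s1 : Y * ∑ p ∈ S, j p * lN p ≤ ∑ p ∈ S, m p := by
    rw [Finset.mul_sum]
    exact Finset.sum_le_sum fun p _ => j1 p
  have s2 : ∑ p ∈ S, m p ≤ Y * ∑ p ∈ S, j p * lN p + Y * ∑ p ∈ S, lN p := by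
    rw [Finset.mul_sum, Finset.mul_sum, ← Finset.sum_add_distrib]
    exact Finset.sum_le_sum fun p _ => j2 p
  have j0 : ∀ p, (j p : ℝ) * lN p ≠ 0 → FinitePlace.mk p (x - 1) < 1 := fun p hp => by
    by_contra h
    exact hp (by simp [hj, m1 p h])
  refine ⟨(∅ : Finset (K →+* ℂ)).disjSum
    (Finset.univ.filter fun p : S => FinitePlace.mk p.1 (x - 1) < 1),
    Sum.elim 0 fun p => j p * lN p.1, Y, ?_, fun p hp => ?_, ?_, fun B hB => ?_, ?_, ?_⟩
  · rintro (φ | p) hv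
    · simp at hv
    · have hp := (Finset.mem_filter.1 (Finset.inr_mem_disjSum.1 hv)).2
      have ho := fin_one _ hp
      refine ⟨mul_nonneg (Nat.cast_nonneg _) (lN_pos _).le, (fin_pow _ ho H).trans ?_, ?_⟩
      · refine (exp_max (f := (FinitePlace.mk p.1).1) hx hp.le).ge.trans ?_
        refine Real.exp_le_exp.2 (neg_le_neg ((j1 p).trans ?_))
        rw [hm]
        exact le_rfl
      · rw [av_inr, map_pow, ho]
        simp
  · exact fin_one _ (Finset.mem_filter.1 (Finset.inr_mem_disjSum.1 hp)).2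
  · rw [Finset.sum_disjSum, Finset.sum_empty, zero_add]
    simp only [Sum.elim_inr]
    rw [Finset.sum_filter_of_ne fun p _ => j0 p.1,
      Finset.sum_coe_sort S fun p => (j p : ℝ) * lN p]
    refine le_of_mul_le_mul_left ?_ hY
    nlinarith [mul_le_mul_of_nonneg_left hl hY.le]
  · obtain ⟨q, hq, col, hc⟩ := hF K (S.filter fun p => FinitePlace.mk p (x - 1) < 1) j
    refine ⟨q, hq.trans ?_, col, fun s s' hs he => ?_⟩
    · rw [Finset.sum_filter_of_ne fun p _ => j0 p]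
      have h4 : ∑ p ∈ S, j p * lN p ≤ u * Λ := by
        refine le_of_mul_le_mul_left ?_ hY
        nlinarith [mul_le_mul_of_nonneg_right hu (by positivity : 0 ≤ Y * Λ)]
      exact (Real.exp_le_exp.2 h4).trans (le_mul_of_one_le_left (Real.exp_pos _).le (by nlinarith))
    · rintro (φ | p) hv
      · simp at hv
      · have hp := (Finset.mem_filter.1 (Finset.inr_mem_disjSum.1 hv)).2
        refine hc s s' (fun p' hp' => ?_) he p (Finset.mem_filter.2 ⟨p.2, hp⟩)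
        obtain ⟨a, b⟩ := Finset.mem_filter.1 hp'
        exact hs (Sum.inr ⟨p', a⟩)
          (Finset.inr_mem_disjSum.2 (Finset.mem_filter.2 ⟨Finset.mem_univ _, b⟩))
  · nlinarith [mul_le_mul_of_nonneg_right hu (by positivity : 0 ≤ Y * Λ)]
  · nlinarith [mul_le_mul_of_nonneg_right hu (by linarith : 0 ≤ X)]

theorem archCase (hA : RowCOLA) {H u : ℕ} {x : K} {S : Finset (Pr K)} {Λ X n : ℝ}
    (hx : x - 1 ≠ 0) (hn : 1 ≤ n) (hu : 16 * n + 32 ≤ u) (hΛ : 1 ≤ Λ) (hX : 8 * n * Λ ≤ X)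
    (hH : 8 * n * H ≤ X) (φ : K →+* ℂ) (lo : X ≤ 4 * n * max (Real.log ‖φ (x - 1)⁻¹‖) 0) :
    Dt H u x S Λ X := by
  have hL : 0 < 8 * n * Λ := by positivity
  obtain ⟨Y, h1, h2, h3⟩ := floor_bd hL hX
  have h0 : 0 < ‖φ x - 1‖ := by
    rw [← map_one φ, ← map_sub]
    exact norm_pos_iff.2 ((map_ne_zero φ).2 hx)
  rw [map_inv₀, norm_inv, Real.log_inv, map_sub, map_one] at lo
  obtain ⟨t, ht⟩ : ∃ t, t = -Real.log ‖φ x - 1‖ := ⟨_, rfl⟩
  have he : ‖φ x - 1‖ = Real.exp (-t) := by rw [ht, neg_neg, Real.exp_log h0]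
  rw [← ht] at lo
  have t0 : 0 ≤ t := by
    by_contra h
    rw [max_eq_right (not_le.1 h).le] at lo
    linarith
  rw [max_eq_left t0] at lo
  have t1 : 2 * (Y * Λ) ≤ t := le_of_mul_le_mul_left (by linarith) (by positivity : 0 < 4 * n)
  have t2 : 2 * H ≤ t := le_of_mul_le_mul_left (by linarith) (by positivity : 0 < 4 * n)
  have e2 : 2 ≤ Real.exp 1 := by linarith [Real.add_one_le_exp 1]
  have hz : ‖φ x ^ H - 1‖ ≤ Real.exp (-(Y * Λ)) := by
    have a1 := arch_pow (he.trans_le (Real.exp_le_one_iff.2 (by linarith))) H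
    have a2 : (2 : ℝ) ^ H ≤ Real.exp H := by
      rw [← Real.exp_one_pow]
      gcongr
    rw [he] at a1
    calc _ ≤ Real.exp H * Real.exp (-t) := a1.trans (by gcongr; linarith)
      _ ≤ _ := by rw [← Real.exp_add]; exact Real.exp_le_exp.2 (by linarith)
  have hYΛ : 1 ≤ Y * Λ := by nlinarith
  refine ⟨{Sum.inl φ}, fun _ => Λ, Y, ?_, fun p hp => by simp at hp, by simp, fun B hB => ?_,
    ?_, ?_⟩
  · intro v hv
    rw [Finset.mem_singleton.1 hv, av_inl, av_inl, map_sub, map_pow, map_one]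
    refine ⟨by linarith, hz, log_near (hz.trans ?_)⟩
    refine (Real.exp_le_exp.2 (neg_le_neg hYΛ)).trans ?_
    rw [Real.exp_neg, one_div]
    exact inv_anti₀ two_pos e2
  · obtain ⟨q, hq, col, hc⟩ := hA B (Real.exp (-Λ)) (by linarith) (Real.exp_pos _)
    refine ⟨q, hq.trans ?_, fun s => col (φ s), fun s s' hs h v hv => ?_⟩
    · have a1 : 1 ≤ Real.exp Λ := Real.one_le_exp (by linarith)
      have a2 : 36 ≤ Real.exp (35 * Λ) := by linarith [Real.add_one_le_exp (35 * Λ)]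
      have a3 : Real.exp (35 * Λ) * Real.exp Λ ^ 2 ≤ Real.exp (u * Λ) := by
        rw [← Real.exp_nat_mul, ← Real.exp_add]
        exact Real.exp_le_exp.2 (by push_cast; nlinarith)
      rw [Real.exp_neg, div_inv_eq_mul]
      calc _ ≤ (6 * (B * Real.exp Λ)) ^ 2 := by gcongr; nlinarith
        _ = B ^ 2 * (36 * Real.exp Λ ^ 2) := by ring
        _ ≤ _ := by gcongr; exact le_trans (by gcongr) a3
    · rw [Finset.mem_singleton.1 hv, av_inl, map_sub]
      obtain ⟨a, b⟩ := hs _ (Finset.mem_singleton_self _)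
      exact hc _ _ a b h
  · nlinarith [mul_le_mul_of_nonneg_right hu (by positivity : 0 ≤ Y * Λ)]
  · nlinarith [mul_le_mul_of_nonneg_right hu (by linarith : 0 ≤ X),
      mul_le_mul_of_nonneg_right hn (by positivity : 0 ≤ Y * Λ),
      mul_le_mul_of_nonneg_right hn (by linarith : 0 ≤ X)]

end Pool.Agent.MP_542436_nt.H96N.FIN

namespace Pool.Agent.MP_542436_nt.H96N

open NumberField FIN

theorem rowFIN : RowMID → RowPF → RowCOLF → RowCOLA → RowABCD := by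
  intro hM hP hF hA K _ _ ε hε
  obtain ⟨H, -, hM⟩ := hM K
  obtain ⟨n, hn⟩ : ∃ n, n = Fintype.card (K →+* ℂ) := ⟨_, rfl⟩
  have n1 : (1 : ℝ) ≤ n := by exact_mod_cast hn ▸ Fintype.card_pos
  obtain ⟨C₀, C, hC, hM⟩ := hM ε (16 * n + 32) hε (by omega)
  obtain ⟨c, hc⟩ : ∃ c : ℝ, c = Height.totalWeight K * Real.log 2 := ⟨_, rfl⟩
  have c0 : 0 ≤ c := hc ▸ by positivity
  have e0 : 0 < ε⁻¹ := inv_pos.2 hε
  refine ⟨|C| + (4 * (c + 1) + 8 * n * (ε⁻¹ + C₀) + 8 * n * H), fun x S D h0 h1 hD => ?_⟩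
  have hx : x - 1 ≠ 0 := sub_ne_zero.2 h1
  have D0 : 0 ≤ D := by simpa using hD ∅ (Finset.disjoint_empty_left S)
  have d1 : Def S D x := fun U hU =>
    (Finset.sum_le_sum fun p _ => le_add_of_nonneg_right (abs_nonneg _)).trans (hD U hU)
  have d2 : Def S D (x - 1)⁻¹ := fun U hU => by
    refine (Finset.sum_le_sum fun p _ => ?_).trans (hD U hU)
    rw [map_inv₀, Real.log_inv, abs_neg]
    exact le_add_of_nonneg_left (abs_nonneg _)
  obtain ⟨-, p1, p2⟩ := hP K S (x - 1)⁻¹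
  have p3 := p2 D d2
  have p4 := Height.logHeight₁_sub_le x 1
  have p5 := Height.logHeight₁_add_le (x - 1) 1
  rw [Height.logHeight₁_inv, Fintype.sum_sum_type] at p1 p3
  simp only [av_inl, av_inr] at p1 p3
  rw [Finset.sum_coe_sort S fun p => max (Real.log (FinitePlace.mk p (x - 1)⁻¹)) 0] at p1 p3
  rw [Height.logHeight₁_one, ← hc] at p4 p5
  rw [sub_add_cancel] at p5
  change _ ≤ _ * Real.exp (ε * ∑ p ∈ S, lN p)
  have l0 : 0 ≤ ∑ p ∈ S, lN p := Finset.sum_nonneg fun p _ => (lN_pos p).le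
  have key := fun T μ Y => hM x S D T μ Y _ rfl h0 d1
  obtain ⟨E, hE⟩ : ∃ E, E = Real.exp (ε * ∑ p ∈ S, lN p) := ⟨_, rfl⟩
  have E1 : 1 ≤ E := hE ▸ Real.one_le_exp (by positivity)
  have E2 : ∑ p ∈ S, lN p + C₀ ≤ (ε⁻¹ + C₀) * ((1 + D) * E) := by
    have a1 : ε * ∑ p ∈ S, lN p ≤ E := by linarith [Real.add_one_le_exp (ε * ∑ p ∈ S, lN p)]
    have a2 := (le_inv_mul_iff₀ hε).2 a1
    have a3 : E ≤ (1 + D) * E := by nlinarith
    have a4 := mul_le_mul_of_nonneg_left a3 (by linarith : 0 ≤ ε⁻¹ + C₀)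
    nlinarith
  rw [← hE] at key ⊢
  by_contra hX
  rw [not_le, mul_assoc] at hX
  obtain ⟨F, hF'⟩ : ∃ F, F = (1 + D) * E := ⟨_, rfl⟩
  have F1 : 1 + D ≤ F := by nlinarith
  rw [← hF'] at hX E2
  have b0 : 0 ≤ |C| * F := mul_nonneg (abs_nonneg _) (by linarith)
  have b1 : 4 * (c + D) ≤ 4 * (c + 1) * F := by nlinarith
  have b2 : 8 * n * (∑ p ∈ S, lN p + C₀) ≤ 8 * n * (ε⁻¹ + C₀) * F := by
    rw [mul_assoc _ _ F]
    gcongr
  have b3 : (8 * n * H : ℝ) ≤ 8 * n * H * F := le_mul_of_one_le_right (by positivity) (by linarith)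
  have b4 : 0 ≤ 8 * n * (∑ p ∈ S, lN p + C₀) := by positivity
  have b5 : (0 : ℝ) ≤ 8 * n * H := by positivity
  have hd : Dt H (16 * n + 32) x S (∑ p ∈ S, lN p + C₀) (Height.logHeight₁ x) := by
    have a0 : 0 ≤ ∑ φ : K →+* ℂ, max (Real.log ‖φ (x - 1)⁻¹‖) 0 :=
      Finset.sum_nonneg fun _ _ => le_max_right _ _
    by_cases h : Height.logHeight₁ x / 2 ≤
        ∑ p ∈ S, max (Real.log (FinitePlace.mk p (x - 1)⁻¹)) 0
    · exact finCase hF hx (by push_cast; linarith) (by linarith) (by linarith) (by nlinarith) h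
        (by linarith)
    · obtain ⟨φ, -, hφ⟩ := Finset.exists_max_image Finset.univ
        (fun φ : K →+* ℂ => max (Real.log ‖φ (x - 1)⁻¹‖) 0) Finset.univ_nonempty
      have a1 := Finset.sum_le_card_nsmul _ _ _ hφ
      rw [Finset.card_univ, ← hn, nsmul_eq_mul] at a1
      exact archCase hA hx n1 (by push_cast; linarith) (by linarith) (by linarith) (by linarith) φ
        (by linarith)
  obtain ⟨T, μ, Y, a1, a2, a3, a4, a5, a6⟩ := hd
  have a7 := key T μ Y a1 a2 a3 a4 a5 a6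
  rw [mul_assoc, ← hF'] at a7
  have a8 : C * F ≤ |C| * F := mul_le_mul_of_nonneg_right (le_abs_self C) (by linarith)
  linarith

end Pool.Agent.MP_542436_nt.H96N
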