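import Pool.Agent.MP_542436_nt.H96N.Spec
import Pool.Agent.MP_542436_nt.H39.GM

/-! The choice of the parameters. -/

set_option autoImplicit false

namespace Pool.Agent.MP_542436_nt.H96N.GM

/-- the error terms -/
theorem errs {u k ρ δ₁ δ G₀ Q B N h Λ La W S : ℝ} (hu : 1 ≤ u) (hk : 1 ≤ k) (hρ0 : 0 ≤ ρ)
    (hρ : ρ ≤ 2 * k) (hδ0 : 0 ≤ δ₁) (hδ : δ₁ ≤ δ) (hG : 0 ≤ G₀) (hB : 0 < B) (hQ0 : 0 < Q)
    (hQ : 32 * B * k * δ * G₀ * u ≤ Q) (hN : 0 ≤ N) (hLa : La ≤ u * Λ) (hΛ : 1 ≤ Λ) (hW0 : 0 ≤ W)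
    (hW : 4 * B * ((64 * u + 9) * (2 * k * δ + 2 * k) + 1) * W ≤ Λ) (hS : 8 * S + 4 ≤ N)
    (hS' : 4 * B * ((6 * S + 2) * h) ≤ N) :
    W * ((2 * (32 * u) + 9) * (ρ * (δ₁ * N) + N * (2 * k)) + 8 * S + 4) + (6 * S + 2) * h +
      4 * (ρ * (δ₁ * N) * (G₀ / Q)) * La ≤ 3 / 4 * (N * Λ / B) := by
  have hρδ : ρ * δ₁ ≤ 2 * k * δ := mul_le_mul hρ hδ hδ0 (by linarith)
  have hρδN : ρ * (δ₁ * N) ≤ 2 * k * δ * N := by
    rw [← mul_assoc]; exact mul_le_mul_of_nonneg_right hρδ hN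
  have h1 : W * ((2 * (32 * u) + 9) * (ρ * (δ₁ * N) + N * (2 * k)) + 8 * S + 4) ≤
      N * Λ / B / 4 := by
    have a1 := mul_le_mul_of_nonneg_left hρδN (show 0 ≤ 64 * u + 9 by linarith)
    have a2 : (2 * (32 * u) + 9) * (ρ * (δ₁ * N) + N * (2 * k)) + 8 * S + 4 ≤
        ((64 * u + 9) * (2 * k * δ + 2 * k) + 1) * N := by linarith
    have a3 := mul_le_mul_of_nonneg_left a2 (show 0 ≤ W * (B * 4) by positivity)
    have a4 := mul_le_mul_of_nonneg_left hW hN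
    rw [div_div, le_div_iff₀ (by positivity)]
    linarith
  have h2 : (6 * S + 2) * h ≤ N * Λ / B / 4 := by
    rw [div_div, le_div_iff₀ (by positivity)]
    have a2 := mul_le_mul_of_nonneg_left hΛ hN
    linarith
  have h3 : 4 * (ρ * (δ₁ * N) * (G₀ / Q)) ≤ N / (4 * B * u) := by
    rw [← mul_div_assoc, ← mul_div_assoc, div_le_div_iff₀ hQ0 (by positivity)]
    have b1 := mul_le_mul_of_nonneg_right hρδN (show 0 ≤ 4 * G₀ * (4 * B * u) by positivity)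
    have b2 := mul_le_mul_of_nonneg_left hQ hN
    linarith
  have h4 : 4 * (ρ * (δ₁ * N) * (G₀ / Q)) * La ≤ N * Λ / B / 4 := by
    calc 4 * (ρ * (δ₁ * N) * (G₀ / Q)) * La ≤ 4 * (ρ * (δ₁ * N) * (G₀ / Q)) * (u * Λ) :=
          mul_le_mul_of_nonneg_left hLa (by positivity)
      _ ≤ N / (4 * B * u) * (u * Λ) := mul_le_mul_of_nonneg_right h3 (by positivity)
      _ = N * Λ / B / 4 := by field_simp
  linarith

theorem apx_mono {K V P : Type} [Field K] [Fintype V] [Fintype P] {D : Dat K V P} {x : P → ℤ}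
    {a b : K} {h : ℝ} {T : Finset V} {μ : V → ℝ} {Y Y' : ℕ} (H : D.Apx x a b h T μ Y)
    (hY : Y' ≤ Y) : D.Apx x a b h T μ Y' :=
  { H with
    apx := fun v hv => (H.apx v hv).trans (Real.exp_le_exp.2 (neg_le_neg
      (mul_le_mul_of_nonneg_right (Nat.cast_le.2 hY) (H.pos v hv)))) }

end Pool.Agent.MP_542436_nt.H96N.GM

namespace Pool.Agent.MP_542436_nt.H96N

open MvPolynomial GM
open Pool.Agent.MP_542436_nt.H39.GM (count norel near)

theorem rowGM : RowSTR → RowCORE → H39.RowZ → RowGM := by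
  intro hSTR hCORE hZ k u hk hu
  choose gZ EZ hZP using hZ
  obtain ⟨G₀, hG₀⟩ := hSTR k
    (fun G => ∑ ρ ∈ Finset.range (2 * k + 1), gZ ρ (4 * (64 * u * k * G + 1)))
  obtain ⟨E, hE1, hE⟩ : ∃ E, 1 ≤ E ∧ ∀ ρ ≤ 2 * k, ∀ G ≤ G₀,
      EZ ρ (4 * (64 * u * k * G + 1)) ≤ E ∧ gZ ρ (4 * (64 * u * k * G + 1)) ≤ E := by
    refine ⟨∑ q ∈ Finset.range (2 * k + 1) ×ˢ Finset.range (G₀ + 1),
      (EZ q.1 (4 * (64 * u * k * q.2 + 1)) + gZ q.1 (4 * (64 * u * k * q.2 + 1))) + 1,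
      by omega, fun ρ hρ G hG => ?_⟩
    have := Finset.single_le_sum (s := Finset.range (2 * k + 1) ×ˢ Finset.range (G₀ + 1))
      (f := fun q => EZ q.1 (4 * (64 * u * k * q.2 + 1)) + gZ q.1 (4 * (64 * u * k * q.2 + 1)))
      (fun _ _ => Nat.zero_le _) (a := (ρ, G)) (by simp; omega)
    simp only at this
    omega
  obtain ⟨δ, hδ⟩ : ∃ δ, δ = 64 * u * k * G₀ + 1 := ⟨_, rfl⟩
  obtain ⟨B, hB⟩ : ∃ B, B = 16 * u * E * u := ⟨_, rfl⟩
  obtain ⟨Q, hQ⟩ : ∃ Q, Q = 32 * B * k * δ * G₀ * u + G₀ + 1 := ⟨_, rfl⟩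
  obtain ⟨c₀, hc₀⟩ : ∃ c₀, c₀ = 4 * B * ((64 * u + 9) * (2 * k * δ + 2 * k) + 1) := ⟨_, rfl⟩
  obtain ⟨c₃, hc₃⟩ : ∃ c₃, c₃ = 2 * k * δ * G₀ := ⟨_, rfl⟩
  obtain ⟨c₄, hc₄⟩ : ∃ c₄, c₄ = 4 * B * (6 * c₃ + 2) := ⟨_, rfl⟩
  obtain ⟨c₅, hc₅⟩ : ∃ c₅, c₅ = 2 * k * E * G₀ := ⟨_, rfl⟩
  obtain ⟨C₁, hC₁⟩ : ∃ C₁, C₁ = Q + k + c₀ + (8 * c₃ + 4) + c₄ + c₅ + 16 * u * E := ⟨_, rfl⟩
  refine ⟨(2 * C₁ : ℕ), by exact_mod_cast (by omega : 1 ≤ 2 * C₁), ?_⟩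
  intro K V P _ _ _ _ D x a b h T μ Y M q Λ hA hcol hM hΛ hΛμ hW hLam hLA hLA'
  by_contra hY
  push Not at hY
  have hM1 : 1 ≤ M := by
    rcases Nat.eq_zero_or_pos M with h0 | h0
    · rw [h0, zero_pow (by omega)] at hM; omega
    · exact h0
  have hQ1 : 1 ≤ Q := by omega
  have hh := hA.one
  obtain ⟨Z, hZ⟩ : ∃ Z, Z = M * Q ^ Fintype.card P := ⟨_, rfl⟩
  have hZ1 : 1 ≤ Z := by rw [hZ]; exact Nat.mul_pos hM1 (pow_pos hQ1 _)
  have hY1 : (2 * C₁ : ℝ) * Z * h < Y := by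
    refine lt_of_le_of_lt (mul_le_mul_of_nonneg_right ?_ (by linarith)) hY
    have : 2 * C₁ * Z ≤ 2 * C₁ * M * (2 * C₁) ^ Fintype.card P := by
      rw [hZ, ← mul_assoc]
      exact Nat.mul_le_mul_left _ (Nat.pow_le_pow_left (by omega) _)
    exact_mod_cast this
  have hY2 : 2 * C₁ * Z < Y := by
    have h1 : (2 * C₁ : ℝ) * Z ≤ 2 * C₁ * Z * h := le_mul_of_one_le_right (by positivity) hh
    exact_mod_cast h1.trans_lt hY1
  have hY3 : 2 * C₁ ≤ 2 * C₁ * Z := Nat.le_mul_of_pos_right _ hZ1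
  have hD : 0 < 16 * u * E := by positivity
  obtain ⟨n, hn1, hnY, hYn⟩ : ∃ n, 1 ≤ n ∧ 16 * u * E * n ≤ Y ∧ Y ≤ 2 * (16 * u * E * n) := by
    have h1 : 1 ≤ Y / (16 * u * E) := (Nat.le_div_iff_mul_le hD).2 (by omega)
    refine ⟨Y / (16 * u * E), h1, Nat.mul_div_le _ _, ?_⟩
    have h2 := Nat.lt_mul_div_succ Y hD
    have h3 := Nat.mul_le_mul_left (16 * u * E) h1
    rw [mul_add] at h2
    omega
  obtain ⟨N, hN⟩ : ∃ N, N = 16 * u * E * n := ⟨_, rfl⟩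
  have hN1 : 1 ≤ N := by rw [hN]; exact Nat.mul_pos hD hn1
  rw [← hN] at hnY hYn
  have hYN : (Y : ℝ) ≤ 2 * N := by exact_mod_cast hYn
  have hNY : (N : ℝ) ≤ Y := by exact_mod_cast hnY
  have key : ∀ c : ℕ, c ≤ C₁ → (c * Z : ℕ) * h ≤ N := fun c hc => by
    have h1 : ((c * Z : ℕ) : ℝ) ≤ C₁ * Z := by exact_mod_cast Nat.mul_le_mul_right Z hc
    have h2 := mul_le_mul_of_nonneg_right h1 (show 0 ≤ h by linarith)
    linarith
  have key' : ∀ c : ℕ, c ≤ C₁ → c * Z < N := fun c hc => by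
    have h1 := Nat.mul_le_mul_right Z hc
    rw [mul_assoc] at hY2
    omega
  obtain ⟨ρ, G, κ, e, ω, hρ, hG, hω0, hωG, hω1, hκ, he, hrel, hnorm⟩ :=
    hG₀ K V P D x h T μ Q M N q (by omega) hN1 (by linarith) hcol hM
      (by rw [mul_assoc, ← hZ]; exact key k (by omega))
  obtain ⟨δ₁, hδ₁⟩ : ∃ δ₁, δ₁ = 64 * u * k * G + 1 := ⟨_, rfl⟩
  have hδ₁δ : δ₁ ≤ δ := by
    rw [hδ₁, hδ]; exact Nat.add_le_add_right (Nat.mul_le_mul_left _ hG) _
  obtain ⟨hEZ, hgZ⟩ := hE ρ hρ G hG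
  rw [← hδ₁] at hEZ hgZ
  have hκ' : ∀ j, |κ j| ≤ ((G₀ * Z : ℕ) : ℤ) := fun j => (hκ j).trans (le_of_eq (by
    rw [hZ]; push_cast; ring))
  have hB0 : (0 : ℝ) < B := by rw [hB]; positivity
  have hNr : (0 : ℝ) < N := by exact_mod_cast hN1
  have hGδ : G < δ₁ := by
    have : G ≤ 64 * u * k * G := Nat.le_mul_of_pos_left _ (by positivity)
    omega
  have hEn : EZ ρ (4 * δ₁) * n ≤ 4 * u * E * n := by
    refine Nat.mul_le_mul_right _ (hEZ.trans ?_)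
    exact Nat.le_mul_of_pos_left _ (by positivity)
  have hKN : N = 4 * (4 * u * E * n) := by rw [hN]; ring
  have hNℓ : 0 < (N : ℝ) * Λ := by positivity
  have hur : (1 : ℝ) ≤ u := by exact_mod_cast hu
  have hEr : (1 : ℝ) ≤ E := by exact_mod_cast hE1
  have hnr : (1 : ℝ) ≤ n := by exact_mod_cast hn1
  refine hCORE K V P D x a b h T μ N ρ (4 * δ₁) (gZ ρ (4 * δ₁)) (EZ ρ (4 * δ₁)) G (2 * k) N
    (δ₁ * N) (4 * u * E * n) n E (32 * u) (ρ * δ₁ * (G₀ * Z)) (G₀ * Z) κ e ω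
    ((G₀ : ℝ) / Q) (3 / 4 * (N * Λ / B)) Λ (apx_mono hA hnY) (hZP _ _) hω0 hωG
    (by exact_mod_cast hω1) (by omega) hnorm hκ'
    (fun j p => by rw [div_mul_eq_mul_div]; exact near hQ1 hN1 (he j p))
    (by positivity) ?_ (Nat.mul_lt_mul_of_pos_right hGδ hN1) ?_ (by omega) hn1 (by omega) hEn
    ?_ hN1 ?_ (le_of_eq (by ring)) ?_ hΛμ ?_ ?_
  · intro v hv hd
    refine hrel v (fun j => (hv j).trans ?_) (norel hκ' hv ?_ hd)
    · rw [hδ₁]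
      exact_mod_cast Finset.single_le_sum (s := Finset.range (2 * k + 1))
        (f := fun ρ => gZ ρ (4 * (64 * u * k * G + 1))) (fun _ _ => Nat.zero_le _) (a := ρ)
        (by simp; omega)
    · calc ρ * gZ ρ (4 * δ₁) * (G₀ * Z) ≤ 2 * k * E * (G₀ * Z) :=
            Nat.mul_le_mul_right _ (Nat.mul_le_mul hρ hgZ)
        _ = c₅ * Z := by rw [hc₅]; ring
        _ < N := key' _ (by omega)
  · rw [hKN]; exact le_of_eq (by ring)
  · rw [hN]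
    exact Nat.mul_le_mul_right _ (Nat.mul_le_mul_right _ (by omega))
  · have h1 : 32 * u * (ρ * (G * N)) ≤ δ₁ * N := by
      calc 32 * u * (ρ * (G * N)) ≤ 32 * u * (2 * k * (G * N)) :=
            Nat.mul_le_mul_left _ (Nat.mul_le_mul_right _ hρ)
        _ = 64 * u * k * G * N := by ring
        _ ≤ δ₁ * N := Nat.mul_le_mul_right _ (by omega)
    have h2 := count (E := E) (n := n) (Nat.mul_lt_mul_of_pos_right hGδ hN1) h1
    rwa [← hN] at h2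
  · have hkr : (1 : ℝ) ≤ k := by exact_mod_cast hk
    have h3 : ρ * δ₁ * (G₀ * Z) ≤ c₃ * Z := by
      rw [hc₃, mul_assoc _ G₀]
      exact Nat.mul_le_mul_right _ (Nat.mul_le_mul hρ hδ₁δ)
    have h1 := errs (u := u) (k := k) (ρ := ρ) (δ₁ := δ₁) (δ := δ) (G₀ := G₀) (Q := Q) (B := B)
      (N := N) (h := h) (Λ := Λ) (La := D.Lam) (W := Fintype.card V)
      (S := (ρ * δ₁ * (G₀ * Z) : ℕ)) hur hkr (by positivity) (by exact_mod_cast hρ)
      (by positivity) (by exact_mod_cast hδ₁δ) (by positivity) hB0 (by exact_mod_cast hQ1)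
      (by exact_mod_cast (by omega : 32 * B * k * δ * G₀ * u ≤ Q)) hNr.le hLam hΛ
      (by positivity) (le_trans (mul_le_mul_of_nonneg_right (by exact_mod_cast (by omega :
        4 * B * ((64 * u + 9) * (2 * k * δ + 2 * k) + 1) ≤ 2 * C₁)) (by positivity)) hW) ?_ ?_
    · push_cast at h1 ⊢
      exact h1
    · have h4 := key' (8 * c₃ + 4) (by omega)
      rw [add_mul, mul_assoc] at h4
      exact_mod_cast (by omega : 8 * (ρ * δ₁ * (G₀ * Z)) + 4 ≤ N)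
    · refine le_trans ?_ (key c₄ (by omega))
      rw [← mul_assoc]
      refine mul_le_mul_of_nonneg_right ?_ (by linarith)
      have h4 : 4 * B * (6 * (ρ * δ₁ * (G₀ * Z)) + 2) ≤ c₄ * Z := by
        rw [hc₄, mul_assoc _ _ Z, add_mul, mul_assoc 6]
        exact Nat.mul_le_mul_left _ (by omega)
      exact_mod_cast h4
  · have h1 : (2 : ℝ) * E * n / N = 1 / (8 * u) := by
      rw [hN]; push_cast; field_simp; ring
    have h2 : (N : ℝ) - (4 * u * E * n : ℕ) = 3 / 4 * N := by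
      rw [hN]; push_cast; ring
    have h3 : 1 / (8 * u) * D.Ht x ≤ 1 / 4 * (N * Λ) := by
      rw [one_div_mul_eq_div, div_le_iff₀ (by positivity)]
      have := mul_le_mul_of_nonneg_right hYN (show (0 : ℝ) ≤ u * Λ by positivity)
      linarith
    have h4 : N * Λ / B ≤ 1 / 2 * (N * Λ) := by
      rw [div_le_iff₀ hB0]
      have h5 : (2 : ℝ) ≤ B := by
        have : 0 < u * E * u := by positivity
        exact_mod_cast (by rw [hB, mul_assoc 16, mul_assoc 16]; omega : 2 ≤ B)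
      nlinarith
    rw [h1, h2]
    linarith
  · have h1 : (n : ℝ) / N = u / B := by
      rw [hN, hB]; push_cast; field_simp
    have h2 : N * Λ / B ≤ u / B * D.Ht x := by
      rw [div_mul_eq_mul_div]
      refine div_le_div_of_nonneg_right ?_ hB0.le
      have := mul_le_mul_of_nonneg_right hNY (show (0 : ℝ) ≤ Λ by positivity)
      linarith
    have h3 : 0 < N * Λ / B := by positivity
    rw [h1]
    linarith

end Pool.Agent.MP_542436_nt.H96N
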