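import Pool.Agent.MP_542436_nt.H96N.Spec

/-! Approximation to one in a number field. -/

set_option autoImplicit false

namespace Pool.Agent.MP_542436_nt.H96N

open NumberField IsDedekindDomain Finset

namespace MID

section Gen

variable {K V P : Type} [Field K] [Fintype V] [Fintype P] (D : Dat K V P)

theorem ht {a b z : K} {x : P → ℤ} {H : ℕ} (ha : a ≠ 0) (hb : b ≠ 0)
    (h : z ^ H = a / b * D.pw x) :
    D.Ht x ≤ H * ∑ v, max (D.lg v z) 0 + ∑ v, D.hv a b v ∧
      H * ∑ v, max (D.lg v z) 0 ≤ D.Ht x + ∑ v, D.hv a b v := by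
  have key : ∀ v, |max (D.lg v (D.pw x)) 0 - H * max (D.lg v z) 0| ≤ D.hv a b v := fun v => by
    have h1 := D.lg_pow v z H
    rw [h, D.lg_mul v (div_ne_zero ha hb) (D.pw_ne x), D.lg_div v ha hb] at h1
    rw [mul_max_of_nonneg _ _ (Nat.cast_nonneg H), mul_zero, ← h1]
    refine (abs_max_sub_max_le_abs _ _ _).trans ?_
    rw [sub_add_cancel_right, abs_neg]
    exact abs_sub _ _
  rw [Dat.Ht, mul_sum, ← sum_add_distrib, ← sum_add_distrib]
  exact ⟨sum_le_sum fun v _ => by linarith [(abs_le.1 (key v)).2],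
    sum_le_sum fun v _ => by linarith [(abs_le.1 (key v)).1]⟩

theorem near_le {x : P → ℤ} {a b γ : K} {h : ℝ} {T : Finset V} {μ : V → ℝ} {Y : ℕ}
    (A : D.Apx x a b h T μ Y) (hγ : D.Near x h γ) {v : V} (hv : v ∈ T) :
    D.av v γ ≤ Real.exp (2 + D.Lam) := by
  obtain ⟨g, τ, rfl, h1, h2⟩ := hγ
  have a1 := (abs_le.1 (D.near h2 v)).2
  have a2 := D.lg_le A.a0 A.b0 x v
  have a3 : D.hv a b v ≤ h :=
    (single_le_sum (fun v _ => D.hv_nonneg a b v) (mem_univ v)).trans A.sh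
  have a4 : τ * D.lg v (D.pw x) ≤ |τ| * (2 * h) :=
    (le_abs_self _).trans ((abs_mul _ _).trans_le (mul_le_mul_of_nonneg_left
      (by linarith [A.unit v hv, A.one]) (abs_nonneg _)))
  rw [← D.exp_lg v (D.pw_ne g), Real.exp_le_exp]
  linarith [D.lam_le v]

end Gen

theorem count {k q : ℕ} {y : ℝ} (hk : 1 ≤ k) (hy : 0 ≤ y) (h : (q : ℝ) ≤ k ^ 2 * Real.exp y) :
    ∃ M : ℕ, q < M ^ k ∧ (M : ℝ) ≤ 2 * k ^ 2 * Real.exp (y / k) := by
  have k1 : (1 : ℝ) ≤ k := by exact_mod_cast hk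
  have e1 : 1 ≤ Real.exp (y / k) := Real.one_le_exp (by positivity)
  refine ⟨k ^ 2 * (⌊Real.exp (y / k)⌋₊ + 1), ?_, ?_⟩
  · have a1 : Real.exp y < ((⌊Real.exp (y / k)⌋₊ : ℝ) + 1) ^ k := by
      refine lt_of_eq_of_lt ?_ (pow_lt_pow_left₀ (Nat.lt_floor_add_one _) (by positivity)
        (by omega))
      rw [← Real.exp_nat_mul, mul_div_cancel₀ _ (by positivity)]
    have a2 : (k : ℝ) ^ 2 ≤ (k ^ 2) ^ k := le_self_pow₀ (one_le_pow₀ k1) (by omega)
    have a3 := h.trans_lt (mul_lt_mul' a2 a1 (by positivity) (by positivity))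
    rw [← mul_pow] at a3
    exact_mod_cast a3
  · have := Nat.floor_le (zero_le_one.trans e1)
    push_cast
    rw [mul_comm 2, mul_assoc]
    exact mul_le_mul_of_nonneg_left (by linarith) (by positivity)

theorem last {X u Y Λ G M g h ε l C₀ D A B W : ℝ} (hε : 0 < ε) (hl : 0 ≤ l) (hu : 0 ≤ u)
    (hΛ : Λ = l + C₀) (h0 : 0 ≤ Λ) (hG : 0 ≤ G) (hM : 0 ≤ M) (hg : 0 ≤ g) (hh : 0 ≤ h)
    (h1 : X ≤ u * Y * Λ) (h2 : Y ≤ G * M * g * h) (h3 : M ≤ A * Real.exp (ε * Λ / 4))
    (h4 : g ≤ B * Real.exp (ε / 4 * l)) (h5 : h ≤ W * (1 + D)) :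
    X ≤ u * G * A * B * W * (4 / ε) * Real.exp (ε * C₀ / 2) * (1 + D) * Real.exp (ε * l) := by
  have a1 : Λ ≤ 4 / ε * Real.exp (ε * Λ / 4) := by
    rw [div_mul_eq_mul_div, le_div_iff₀ hε]
    linarith [Real.add_one_le_exp (ε * Λ / 4)]
  have a2 : Real.exp (ε * Λ / 4) * Real.exp (ε / 4 * l) * Real.exp (ε * Λ / 4) ≤
      Real.exp (ε * C₀ / 2) * Real.exp (ε * l) := by
    simp only [← Real.exp_add, Real.exp_le_exp, hΛ]
    linarith [mul_nonneg hε.le hl]
  have b3 := hM.trans h3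
  have b4 := hg.trans h4
  have b5 := hh.trans h5
  have A0 : 0 ≤ A := nonneg_of_mul_nonneg_left b3 (Real.exp_pos _)
  have B0 : 0 ≤ B := nonneg_of_mul_nonneg_left b4 (Real.exp_pos _)
  calc X ≤ u * Y * Λ := h1
    _ ≤ u * (G * (A * Real.exp (ε * Λ / 4)) * (B * Real.exp (ε / 4 * l)) * (W * (1 + D))) *
        (4 / ε * Real.exp (ε * Λ / 4)) := by
      gcongr
      refine h2.trans ?_
      gcongr
    _ = u * G * A * B * (W * (1 + D)) * (4 / ε) *
        (Real.exp (ε * Λ / 4) * Real.exp (ε / 4 * l) * Real.exp (ε * Λ / 4)) := by ring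
    _ ≤ u * G * A * B * (W * (1 + D)) * (4 / ε) *
        (Real.exp (ε * C₀ / 2) * Real.exp (ε * l)) := by gcongr
    _ = _ := by ring

variable {K : Type} [Field K] [NumberField K]

/-- integers away from `S` -/
def ring (S : Finset (Pr K)) : Subring K where
  carrier := {z | ∀ p ∉ S, FinitePlace.mk p z ≤ 1}
  mul_mem' ha hb p hp := by
    rw [map_mul]
    exact mul_le_one₀ (ha p hp) (apply_nonneg _ _) (hb p hp)
  one_mem' p _ := by simp
  add_mem' ha hb p hp := (FinitePlace.add_le _ _ _).trans (max_le (ha p hp) (hb p hp))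
  zero_mem' p _ := by simp
  neg_mem' ha p hp := by
    rw [map_neg_eq_map]
    exact ha p hp

theorem sum_le_one (p : Pr K) {ι : Type} (t : Finset ι) {f : ι → K}
    (h : ∀ i, FinitePlace.mk p (f i) ≤ 1) : FinitePlace.mk p (∑ i ∈ t, f i) ≤ 1 :=
  sum_induction _ (fun z => FinitePlace.mk p z ≤ 1)
    (fun _ _ a b => (FinitePlace.add_le _ _ _).trans (max_le a b)) (by simp) fun i _ => h i

theorem lN_nonneg (p : Pr K) : 0 ≤ lN p := Real.log_natCast_nonneg _

end MID

open MID in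
theorem rowMID : RowGM → RowPF → RowDEC → RowCNT → RowMID := by
  classical
  intro GM PF DEC CNT K _ _
  obtain ⟨H, r, c, η, π, H0, c1, η1, η2, π1, π2, dec⟩ := DEC K
  refine ⟨H, H0, fun ε u ε0 u1 => ?_⟩
  obtain ⟨n, hn⟩ : ∃ n, n = Fintype.card (K →+* ℂ) := ⟨_, rfl⟩
  have n1 : (1 : ℝ) ≤ n := by exact_mod_cast hn ▸ Fintype.card_pos
  obtain ⟨c₁, hc₁⟩ := exists_nat_ge ((r * n + n + 1) * c)
  obtain ⟨k, hk⟩ := exists_nat_ge (4 * (2 * c₁ + 4 + u) / ε)
  obtain ⟨G, G1, hG⟩ := GM (k + 1) (c₁ + (H + 2) * u) (by omega) (by nlinarith)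
  obtain ⟨C', C'0, hC'⟩ := CNT K G 1 one_pos
  obtain ⟨C'', -, hC''⟩ := CNT K (Real.log G) (ε / 4) (by positivity)
  refine ⟨C' + n * G + 1, 4 * (n * c + 1) + u * G * (2 * (k + 1 : ℕ) ^ 2) *
    (G ^ r * Real.exp C'') * (n * c + 1) * (4 / ε) * Real.exp (ε * (C' + n * G + 1) / 2),
    le_add_of_nonneg_left (by positivity), ?_⟩
  intro x S D T μ Y Λ hΛ x0 hD hT hT1 hμ hcol hX hY
  have l0 : 0 ≤ ∑ p ∈ S, lN p := sum_nonneg fun p _ => lN_nonneg p
  have D0 : 0 ≤ D := by simpa using hD ∅ (disjoint_empty_left _)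
  have G0 : 0 ≤ n * G := by positivity
  have Λ1 : 1 ≤ Λ := by linarith
  have Λl : ∑ p ∈ S, lN p ≤ Λ := by linarith
  have nc : 1 ≤ n * c := one_le_mul_of_one_le_of_one_le n1 c1
  have hh : n * c * D + 1 ≤ (n * c + 1) * (1 + D) := by nlinarith
  have e1 : 1 ≤ Real.exp (ε * ∑ p ∈ S, lN p) := Real.one_le_exp (by positivity)
  rw [add_mul, add_mul]
  rcases lt_or_ge (Height.logHeight₁ x) (4 * (n * c * D + 1)) with hs | hs
  · exact le_add_of_le_of_nonneg (le_trans (by linarith)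
      (le_mul_of_one_le_right (by positivity) e1)) (by positivity)
  refine le_add_of_nonneg_of_le (by positivity) ?_
  set S₁ := S.filter fun p => FinitePlace.mk p x ≠ 1 with hS₁
  obtain ⟨a, b, y, e, a0, b0, hx, ab1, ab2, ab3⟩ := dec x S₁ D x0 fun U hU => by
    refine le_of_eq_of_le (sum_subset sdiff_subset fun p h1 h2 => ?_).symm
      (hD (U \ S) sdiff_disjoint)
    have h3 : p ∈ S := by simpa [h1] using h2
    have h4 : FinitePlace.mk p x = 1 :=
      not_not.1 fun h => disjoint_left.1 hU h1 (mem_filter.2 ⟨h3, h⟩)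
    simp [h4]
  have un : ∀ (p : Pr K) (j : Fin r ⊕ S₁), p ∉ S₁ →
      FinitePlace.mk p (Sum.elim η (fun p : S₁ => π p) j : Kˣ) = 1 := by
    rintro p (j | j) hp
    · exact η1 j p
    · exact π1 j p fun h => hp (h ▸ j.2)
  let E : Dat K (Pl K S) (Fin r ⊕ S₁) := ⟨av S, ring S, Sum.elim η fun p => π p,
    fun z hz h0 => (PF K S z).1 h0 hz, fun j => by
      have := fun p (hp : p ∉ S) => un p j fun h => hp (mem_filter.1 h).1
      exact ⟨fun p hp => (this p hp).le, fun p hp => by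
        rw [Units.val_inv_eq_inv_val, map_inv₀, this p hp, inv_one]⟩⟩
  have hx' : x ^ H = a / b * E.pw (Sum.elim y fun p => e p) := by
    rw [hx, Dat.pw, Fintype.prod_sum_type, ← prod_coe_sort S₁]
    rfl
  have hv : ∑ v, E.hv a b v ≤ n * c * D := by
    rw [Fintype.sum_sum_type, sum_eq_zero (s := (univ : Finset S)) fun p _ => ?_, add_zero,
      mul_assoc, hn]
    · exact (sum_le_card_nsmul _ _ _ fun φ _ => ab3 φ).trans_eq (nsmul_eq_mul _ _)
    · obtain ⟨h1, h2⟩ := ab2 p ((em _).symm.imp_left fun h => mem_filter.2 ⟨p.2, h⟩)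
      change |Real.log (FinitePlace.mk p.1 a)| + |Real.log (FinitePlace.mk p.1 b)| = 0
      simp [h1, h2]
  have A : E.Apx (Sum.elim y fun p => e p) a b (n * c * D + 1) T μ Y :=
    ⟨fun p _ => (ab1 p).1, fun p _ => (ab1 p).2, a0, b0, le_add_of_nonneg_left (by positivity),
      by linarith, fun v h => (hT v h).1, fun v h => hx' ▸ (hT v h).2.1,
      fun v h => hx' ▸ (hT v h).2.2⟩
  have l1 : ∑ p : S₁, c * lN p.1 ≤ c * Λ := by
    rw [← mul_sum, sum_coe_sort S₁ lN]
    exact mul_le_mul_of_nonneg_left ((sum_le_sum_of_subset_of_nonneg (filter_subset _ _)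
      fun p _ _ => lN_nonneg p).trans Λl) (by positivity)
  have hL : E.Lam ≤ c₁ * Λ := by
    have b1 : ∀ φ : K →+* ℂ, E.lam (.inl φ) ≤ r * c + c * Λ := fun φ => by
      rw [Dat.lam, Fintype.sum_sum_type]
      refine add_le_add ((sum_le_card_nsmul _ _ _ fun i _ => η2 i φ).trans_eq (by simp))
        ((sum_le_sum fun (p : S₁) _ => (π2 p.1).2 φ).trans l1)
    have b2 : ∑ p : S, E.lam (.inr p) ≤ c * Λ := by
      simp only [Dat.lam]
      rw [sum_comm, Fintype.sum_sum_type, sum_eq_zero (s := (univ : Finset (Fin r)))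
        fun i _ => sum_eq_zero fun p _ => ?_, zero_add]
      · refine (sum_le_sum fun p _ => ?_).trans l1
        rw [sum_eq_single ⟨p.1, (mem_filter.1 p.2).1⟩ (fun p' _ h => ?_) (by simp)]
        · exact (π2 p).1
        · change |Real.log (FinitePlace.mk p'.1 (π p : K))| = 0
          simp [π1 p p' fun h' => h (Subtype.ext h')]
      · change |Real.log (FinitePlace.mk p.1 (η i : K))| = 0
        simp [η1]
    have b3 := sum_le_card_nsmul univ _ _ fun φ _ => b1 φ
    rw [card_univ, ← hn, nsmul_eq_mul] at b3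
    rw [Dat.Lam, Fintype.sum_sum_type]
    have b4 := mul_le_mul_of_nonneg_left Λ1 (show 0 ≤ r * n * c by positivity)
    linarith [mul_le_mul_of_nonneg_right hc₁ (zero_le_one.trans Λ1)]
  obtain ⟨t1, t2⟩ := ht E a0 b0 hx'
  obtain ⟨-, p2, p3⟩ := PF K S x
  replace p3 := p3 D hD
  change ∑ v, max (E.lg v x) 0 ≤ _ at p2
  change _ ≤ ∑ v, max (E.lg v x) 0 + D at p3
  have H1 : (1 : ℝ) ≤ H := by exact_mod_cast H0
  have u1' : (1 : ℝ) ≤ u := by exact_mod_cast u1
  have m0 : 0 ≤ ∑ v, max (E.lg v x) 0 := sum_nonneg fun _ _ => le_max_right _ _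
  have d1 := mul_le_mul_of_nonneg_right nc D0
  obtain ⟨q, hq, col, hc⟩ := hcol ((k + 1 : ℕ) * Real.exp ((c₁ + 2) * Λ))
    (one_le_mul_of_one_le_of_one_le (by simp) (Real.one_le_exp (by positivity)))
  obtain ⟨M, M1, M2⟩ := count (k := k + 1) (q := q) (y := (2 * c₁ + 4 + u) * Λ) (by omega)
    (by positivity) (hq.trans_eq (by
      rw [mul_pow, mul_assoc, ← Real.exp_nat_mul, ← Real.exp_add]
      congr 2
      push_cast
      ring))
  have sm : ∀ γ : Fin (k + 1) → K, (∀ i, E.Near (Sum.elim y fun p => e p) (n * c * D + 1) (γ i)) →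
      ∀ v ∈ T, Sm ((k + 1 : ℕ) * Real.exp ((c₁ + 2) * Λ)) (∑ i, γ i) v := by
    rintro γ hγ (φ | p) h
    · change av S (.inl φ) _ ≤ _
      refine ((av S (.inl φ)).sum_le _ _).trans ((sum_le_card_nsmul _ _
        (Real.exp ((c₁ + 2) * Λ)) fun i _ => (near_le E A (hγ i) h).trans ?_).trans_eq (by simp))
      exact Real.exp_le_exp.2 (by linarith)
    · refine sum_le_one p.1 _ fun i => ?_
      obtain ⟨g, -, h1, -⟩ := hγ i
      rw [h1, Dat.pw, Units.coe_prod, map_prod]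
      refine (prod_eq_one fun j _ => ?_).le
      rw [Units.val_zpow_eq_zpow_val, map_zpow₀]
      exact (congrArg (· ^ g j) (un p j fun h' => (mem_filter.1 h').2 (hT1 p h))).trans
        (one_zpow _)
  have YΛ : 0 ≤ Y * Λ := by positivity
  have fin := hG K _ _ E _ a b _ T μ Y M q Λ A ⟨col, fun γ γ' h => hc _ _ fun v hv =>
    ⟨sm γ (fun i => (h i).1) v hv, sm γ' (fun i => (h i).2) v hv⟩⟩ M1 Λ1 hμ
    (by
      have := hC' S
      rw [Fintype.card_sum, Fintype.card_coe, ← hn]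
      push_cast
      linarith)
    (hL.trans (mul_le_mul_of_nonneg_right (by exact_mod_cast Nat.le_add_right _ _) (by linarith)))
    (by
      have b1 := mul_le_mul_of_nonneg_left (p2.trans hX) (zero_le_one.trans H1)
      have b2 : 0 ≤ c₁ * (Y * Λ) := by positivity
      have b3 : 0 ≤ u * (Y * Λ) := by positivity
      push_cast
      linarith)
    (by
      have b1 := mul_le_mul_of_nonneg_right H1 m0
      have b2 : Height.logHeight₁ x ≤ 2 * E.Ht (Sum.elim y fun p => e p) := by linarith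
      have b3 : 0 ≤ E.Ht (Sum.elim y fun p => e p) := sum_nonneg fun _ _ => le_max_right _ _
      have b4 := mul_le_mul_of_nonneg_left b2 (zero_le_one.trans u1')
      have b5 : 0 ≤ (c₁ + H * u) * E.Ht (Sum.elim y fun p => e p) := by positivity
      push_cast
      linarith)
  refine last ε0 l0 (by positivity) hΛ (by positivity) (by positivity) (Nat.cast_nonneg M)
    (by positivity) (by positivity) hX fin (M2.trans ?_) ?_ hh
  · refine mul_le_mul_of_nonneg_left (Real.exp_le_exp.2 ?_) (by positivity)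
    rw [div_le_iff₀ ε0] at hk
    rw [div_le_div_iff₀ (by positivity) (by positivity)]
    push_cast
    nlinarith [mul_le_mul_of_nonneg_right hk (zero_le_one.trans Λ1)]
  · rw [Fintype.card_sum, Fintype.card_fin, Fintype.card_coe, pow_add, mul_assoc, ← Real.exp_add]
    refine mul_le_mul_of_nonneg_left ((pow_le_pow_right₀ G1 (card_filter_le _ _)).trans ?_)
      (by positivity)
    rw [← Real.exp_log (zero_lt_one.trans_le G1), ← Real.exp_nat_mul, Real.exp_le_exp]
    linarith [hC'' S]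

end Pool.Agent.MP_542436_nt.H96N
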