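import Pool.Agent.MP_542436_nt.H96N.Spec

/-! The product formula and heights in terms of embeddings and primes. -/

set_option autoImplicit false

namespace Pool.Agent.MP_542436_nt.H96N

open NumberField IsDedekindDomain

namespace PF

variable {K : Type} [Field K] [NumberField K]

theorem split (S : Finset (Pr K)) (z : K) (g : ℝ → ℝ) :
    ∑ v, g (av S v z) =
      ∑ w : InfinitePlace K, w.mult * g (w z) + ∑ p ∈ S, g (FinitePlace.mk p z) := by
  classical
  rw [Fintype.sum_sum_type]
  simp only [av_inl, av_inr]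
  rw [Finset.sum_coe_sort S fun p => g (FinitePlace.mk p z),
    ← Finset.sum_fiberwise Finset.univ InfinitePlace.mk fun φ : K →+* ℂ => g ‖φ z‖]
  congr 1
  refine Finset.sum_congr rfl fun w _ => ?_
  rw [Finset.sum_congr rfl (g := fun _ => g (w z)), Finset.sum_const,
    InfinitePlace.card_filter_mk_eq, nsmul_eq_mul]
  intro φ hφ
  rw [← (Finset.mem_filter.mp hφ).2, InfinitePlace.apply]

theorem fin (S : Finset (Pr K)) (z : K) : ∃ U : Finset (Pr K), Disjoint U S ∧
    ∀ g : ℝ → ℝ, g 0 = 0 → g 1 = 0 → ∑ᶠ v : FinitePlace K, g (v z) =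
      ∑ p ∈ S, g (FinitePlace.mk p z) + ∑ p ∈ U, g (FinitePlace.mk p z) := by
  classical
  by_cases hz : z = 0
  · refine ⟨∅, Finset.disjoint_empty_left _, fun g h0 _ => ?_⟩
    simp [hz, h0]
  have hf : {p : Pr K | FinitePlace.mk p z ≠ 1}.Finite :=
    (FinitePlace.hasFiniteMulSupport hz).preimage (f := FinitePlace.mk)
      fun _ _ _ _ h => FinitePlace.mk_eq_iff.mp h
  refine ⟨hf.toFinset \ S, Finset.sdiff_disjoint, fun g _ h1 => ?_⟩
  rw [← finsum_comp_equiv FinitePlace.equivHeightOneSpectrum.symm,
    ← Finset.sum_union Finset.disjoint_sdiff]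
  refine finsum_eq_sum_of_support_subset _ fun p hp => ?_
  have : FinitePlace.mk p z ≠ 1 := fun h => hp ((congrArg g h).trans h1)
  rw [Finset.union_sdiff_self_eq_union, Finset.mem_coe]
  exact Finset.mem_union_right _ (hf.mem_toFinset.mpr this)

end PF

theorem rowPF : RowPF := by
  intro K _ _ S z
  obtain ⟨U, hU, h⟩ := PF.fin S z
  have hH : Height.logHeight₁ z = ∑ v, max (Real.log (av S v z)) 0 +
      ∑ p ∈ U, max (Real.log (FinitePlace.mk p z)) 0 := by
    rw [PF.split S z fun t => max (Real.log t) 0, add_assoc,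
      ← h (fun t => max (Real.log t) 0) (by simp) (by simp), NumberField.logHeight₁_eq]
    simp only [Real.posLog_def, Pi.sup_apply, Pi.zero_apply, max_comm]
  refine ⟨fun hz h1 => ?_, ?_, fun D hD => ?_⟩
  · have hp := congrArg Real.log (NumberField.prod_abs_eq_one hz)
    have hw : ∀ w : InfinitePlace K, 0 < w z ^ w.mult := fun w =>
      pow_pos (InfinitePlace.pos_iff.mpr hz) _
    have hv : ∀ v : FinitePlace K, 0 < v z := fun v => FinitePlace.pos_iff.mpr hz
    rw [Real.log_mul (Finset.prod_pos fun w _ => hw w).ne' (finprod_induction (0 < ·) one_pos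
      (fun _ _ => mul_pos) hv).ne', Real.log_prod fun w _ => (hw w).ne', Real.log_finprod hv,
      h Real.log Real.log_zero Real.log_one, Real.log_one] at hp
    simp only [Real.log_pow] at hp
    have hle : ∑ p ∈ U, Real.log (FinitePlace.mk p z) ≤ 0 :=
      Finset.sum_nonpos fun p hp => Real.log_nonpos (hv _).le
        (h1 p (Finset.disjoint_left.mp hU hp))
    rw [PF.split S z Real.log]
    linarith
  · rw [hH]
    exact le_add_of_nonneg_right (Finset.sum_nonneg fun _ _ => le_max_right _ _)
  · rw [hH]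
    refine add_le_add le_rfl (le_trans (Finset.sum_le_sum fun p _ => ?_) (hD U hU))
    exact max_le (le_abs_self _) (abs_nonneg _)

end Pool.Agent.MP_542436_nt.H96N
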