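import Pool.Agent.MP_542436_nt.H96N.Spec
import Pool.Agent.MP_542436_nt.H39.PIG

/-! Two sums of one colour. -/

namespace Pool.Agent.MP_542436_nt.H96N

open Finset

namespace PIG

theorem fib (n Q N : ℕ) {P : Type} [Fintype P] (x : P → ℤ) (hQ : 1 ≤ Q) (hN : 1 ≤ N) :
    ∃ T : Finset ℕ, n ≤ T.card ∧ (∀ j ∈ T, j < n * Q ^ Fintype.card P) ∧ ∀ j ∈ T, ∀ j' ∈ T, ∀ p,
      (Q : ℤ) * |(j' : ℤ) * x p % N - (j : ℤ) * x p % N| ≤ N := by
  classical
  have hN' : (0 : ℤ) < N := by exact_mod_cast hN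
  have hQ' : (0 : ℤ) < Q := by exact_mod_cast hQ
  obtain ⟨y, -, hy⟩ := exists_le_card_fiber_of_mul_le_card_of_maps_to
    (s := range (n * Q ^ Fintype.card P)) (t := Fintype.piFinset fun _ : P => Ico (0 : ℤ) Q)
    (f := fun (j : ℕ) (p : P) => (Q : ℤ) * ((j : ℤ) * x p % N) / N) (n := n)
    (fun j _ => Fintype.mem_piFinset.2 fun p => mem_Ico.2
      ⟨Int.ediv_nonneg (mul_nonneg hQ'.le (Int.emod_nonneg _ hN'.ne')) hN'.le,
        Int.ediv_lt_of_lt_mul hN' (mul_lt_mul_of_pos_left (Int.emod_lt_of_pos _ hN') hQ')⟩)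
    ⟨fun _ => 0, Fintype.mem_piFinset.2 fun _ => mem_Ico.2 ⟨le_rfl, hQ'⟩⟩
    (by simp [mul_comm])
  refine ⟨_, hy, fun j hj => mem_range.1 (mem_filter.1 hj).1, fun j hj j' hj' p => ?_⟩
  exact H39.PIG.close hQ' hN' (congrFun ((mem_filter.1 hj').2.trans (mem_filter.1 hj).2.symm) p)

end PIG

open PIG in
theorem rowPIG : RowPIG := by
  classical
  rintro K V P _ _ _ D x h T μ k Q M N q hQ hN h0 ⟨col, hc⟩ hM hh
  obtain ⟨U, hU, hlt, hcl⟩ := fib (k * M) Q N x hQ hN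
  obtain ⟨φ⟩ : Nonempty (Fin k × Fin M ↪ U) :=
    Function.Embedding.nonempty_of_card_le (by simpa using hU)
  have hU0 : U.Nonempty := by
    rw [← card_pos]
    refine lt_of_lt_of_le (Nat.pos_of_ne_zero fun h => ?_) hU
    have h2 := (col 0).pos
    rcases Nat.mul_eq_zero.1 h with rfl | rfl
    · simp at hM; omega
    · have : 0 ^ k ≤ 1 := by cases k <;> simp
      omega
  obtain ⟨j₀, hj₀⟩ := hU0
  set G : ℕ → P → ℤ := fun j p => (j : ℤ) * x p / N - (j₀ : ℤ) * x p / N with hG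
  have ht : ∀ j ∈ U, |(j : ℤ) - j₀| ≤ k * M * Q ^ Fintype.card P := fun j hj => by
    have a1 : (j : ℤ) < k * M * Q ^ Fintype.card P := by exact_mod_cast hlt _ hj
    have a2 : (j₀ : ℤ) < k * M * Q ^ Fintype.card P := by exact_mod_cast hlt _ hj₀
    have a3 : (0 : ℤ) ≤ j := Int.natCast_nonneg _
    have a4 : (0 : ℤ) ≤ j₀ := Int.natCast_nonneg _
    rw [abs_le]
    constructor <;> linarith
  have hg : ∀ j ∈ U, ∀ p, Q * |N * G j p - ((j : ℤ) - j₀) * x p| ≤ N := fun j hj p => by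
    refine le_trans (le_of_eq ?_) (hcl _ hj _ hj₀ p)
    congr 2
    simp only [hG, Int.emod_def]
    ring
  have hn : ∀ j ∈ U, D.Near x h (D.pw (G j)) := fun j hj => by
    have N0 : (0 : ℝ) < N := by exact_mod_cast hN
    refine ⟨_, ((j : ℝ) - j₀) / N, rfl, ?_, fun p => ?_⟩
    · have a : |(j : ℝ) - j₀| ≤ (k * M * Q ^ Fintype.card P : ℕ) := by exact_mod_cast ht j hj
      rw [abs_div, abs_of_pos N0, div_mul_eq_mul_div, div_le_one N0]
      exact (mul_le_mul_of_nonneg_right a h0).trans hh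
    · have a : |N * G j p - ((j : ℤ) - j₀) * x p| ≤ N :=
        (le_mul_of_one_le_left (abs_nonneg _) (by exact_mod_cast hQ)).trans (hg j hj p)
      have b : |(N : ℝ) * G j p - ((j : ℝ) - j₀) * x p| ≤ N := by exact_mod_cast a
      rwa [← div_le_one N0, ← abs_of_pos N0, ← abs_div, abs_of_pos N0, sub_div,
        mul_div_cancel_left₀ _ N0.ne', mul_div_right_comm] at b
  obtain ⟨f, f', hne, he⟩ := Fintype.exists_ne_map_eq_of_card_lt
    (fun f : Fin k → Fin M => col (∑ i, D.pw (G (φ (i, f i))))) (by simpa using hM)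
  obtain ⟨i₀, hi₀⟩ := Function.ne_iff.1 hne
  have h1 := hc _ _ (fun i => ⟨hn _ (φ (i, f i)).2, hn _ (φ (i, f' i)).2⟩) he
  let e : Fin (2 * k) ≃ Fin k ⊕ Fin k := (finCongr (two_mul k)).trans finSumFinEquiv.symm
  let J : Fin k ⊕ Fin k → U := Sum.elim (fun i => φ (i, f i)) fun i => φ (i, f' i)
  let c : Fin k ⊕ Fin k → ℤ := Sum.elim (fun _ => 1) fun _ => -1
  refine ⟨fun i => ((J (e i) : ℕ) : ℤ) - j₀, fun i => G (J (e i)), fun i => c (e i),
    e.symm (Sum.inl i₀), fun i => ?_, fun i hi h => hi ?_, fun i => ht _ (J (e i)).2,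
    fun i => hg _ (J (e i)).2, fun v hv => ?_⟩
  · change c (e i) = 1 ∨ c (e i) = -1
    cases e i
    · exact Or.inl rfl
    · exact Or.inr rfl
  · simp only [Equiv.apply_symm_apply, sub_left_inj, Nat.cast_inj] at h
    rw [Equiv.eq_symm_apply]
    have h2 : J (e i) = φ (i₀, f i₀) := Subtype.ext h
    generalize e i = s at h2
    cases s with
    | inl i' => exact congrArg Sum.inl (Prod.ext_iff.1 (φ.injective h2)).1
    | inr i' =>
      obtain ⟨a, b⟩ := Prod.ext_iff.1 (φ.injective h2)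
      subst a
      exact absurd b.symm hi₀
  · rw [e.sum_comp fun s => ((c s : ℤ) : K) * D.pw (G (J s)), Fintype.sum_sum_type]
    refine le_of_eq_of_le (congrArg _ ?_) (h1 v hv)
    simp [c, J, sub_eq_add_neg]

end Pool.Agent.MP_542436_nt.H96N
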