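import Pool.Agent.MP_542436_nt.H96N.Spec
import Pool.Agent.MP_542436_nt.H39.RAD

/-! Smallness of the jets at one place. -/

set_option autoImplicit false

namespace Pool.Agent.MP_542436_nt.H96N

open MvPolynomial
open Pool.Agent.MP_542436_nt.H39 (bx mem_bx)

namespace RAD

variable {K : Type} [Field K] {f : AbsoluteValue K ℝ} {ρ : ℕ} {r c c' β : ℝ}
  {F G : MvPolynomial (Fin ρ) K}

/-- a bound for the weighted sum of the coefficients -/
def Bd (f : AbsoluteValue K ℝ) (r : ℝ) (F : MvPolynomial (Fin ρ) K) (c : ℝ) : Prop :=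
  ∀ T : Finset (Fin ρ →₀ ℕ), ∑ a ∈ T, f (coeff a F) * r ^ ∑ j, a j ≤ c

theorem Bd.mono (h : Bd f r F c) (h' : c ≤ c') : Bd f r F c' := fun T => (h T).trans h'

theorem Bd.nonneg (h : Bd f r F c) : 0 ≤ c := by simpa using h ∅

theorem bd_sum {ι : Type} (hr : 0 ≤ r) (s : Finset ι) {P : ι → MvPolynomial (Fin ρ) K}
    {b : ι → ℝ} (h : ∀ i ∈ s, Bd f r (P i) (b i)) : Bd f r (∑ i ∈ s, P i) (∑ i ∈ s, b i) :=
  fun T => by
    refine le_trans (Finset.sum_le_sum fun a _ => ?_)
      (Finset.sum_comm.le.trans (Finset.sum_le_sum fun i hi => h i hi T))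
    rw [coeff_sum, ← Finset.sum_mul]
    exact mul_le_mul_of_nonneg_right (f.sum_le _ _) (by positivity)

theorem bd_mon (hr : 0 ≤ r) (a : Fin ρ →₀ ℕ) (x : K) :
    Bd f r (monomial a x) (f x * r ^ ∑ j, a j) := fun T => by
  classical
  have : ∀ b, f (coeff b (monomial a x)) * r ^ ∑ j, b j =
      if a = b then f x * r ^ ∑ j, a j else 0 := fun b => by
    rw [coeff_monomial]
    split_ifs with h <;> simp [h]
  simp only [this, Finset.sum_ite_eq]
  split_ifs
  exacts [le_rfl, by positivity]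

theorem Bd.mul (hr : 0 ≤ r) (h : Bd f r F c) (h' : Bd f r G c') : Bd f r (F * G) (c * c') := by
  have e : F * G = ∑ p ∈ F.support ×ˢ G.support,
      monomial (p.1 + p.2) (coeff p.1 F * coeff p.2 G) := by
    conv_lhs => rw [F.as_sum, G.as_sum, Finset.sum_mul_sum]
    simp only [monomial_mul, Finset.sum_product]
  rw [e]
  refine (bd_sum hr _ fun p _ => bd_mon hr _ _).mono (le_trans (le_of_eq ?_)
    (mul_le_mul (h F.support) (h' G.support) (by positivity) h.nonneg))
  rw [Finset.sum_mul_sum, Finset.sum_product]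
  refine Finset.sum_congr rfl fun a _ => Finset.sum_congr rfl fun b _ => ?_
  simp only [map_mul, Finsupp.add_apply, Finset.sum_add_distrib, pow_add]
  ring

theorem bd_C (hr : 0 ≤ r) (x : K) : Bd f r (C x : MvPolynomial (Fin ρ) K) (f x) := by
  simpa using bd_mon (f := f) hr (0 : Fin ρ →₀ ℕ) x

theorem bd_prod {ι : Type} (hr : 0 ≤ r) (s : Finset ι) {P : ι → MvPolynomial (Fin ρ) K}
    {b : ι → ℝ} (h : ∀ i, Bd f r (P i) (b i)) : Bd f r (∏ i ∈ s, P i) (∏ i ∈ s, b i) := by
  classical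
  induction s using Finset.induction_on with
  | empty => simpa using bd_C (f := f) (ρ := ρ) hr 1
  | insert i s hi ih =>
    rw [Finset.prod_insert hi, Finset.prod_insert hi]
    exact (h i).mul hr ih

theorem Bd.pow (hr : 0 ≤ r) (h : Bd f r F c) (n : ℕ) : Bd f r (F ^ n) (c ^ n) := by
  simpa using bd_prod hr (Finset.range n) fun _ => h

theorem Bd.low (hr : 0 ≤ r) (h1 : r ≤ 1) (h : Bd f 1 F c) :
    Bd f r F (f (coeff 0 F) + r * c) := fun T => by
  classical
  have h2 := mul_le_mul_of_nonneg_left (h T) hr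
  have h3 : ∑ a ∈ T, (if 0 = a then f (coeff 0 F) else 0) ≤ f (coeff 0 F) := by
    rw [Finset.sum_ite_eq]
    split_ifs
    exacts [le_rfl, f.nonneg _]
  refine le_trans ?_ (add_le_add h3 h2)
  rw [Finset.mul_sum, ← Finset.sum_add_distrib]
  refine Finset.sum_le_sum fun a _ => ?_
  split_ifs with h0
  · subst h0
    simpa using mul_nonneg hr (f.nonneg _)
  · rw [zero_add, one_pow, mul_one, mul_comm]
    refine mul_le_mul_of_nonneg_right (pow_le_of_le_one hr h1 fun e => h0 ?_) (f.nonneg _)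
    ext j
    exact (Finset.sum_eq_zero_iff.1 e j (Finset.mem_univ j)).symm

/-- the twisted expansion at the point `δ` -/
noncomputable def ph (δ : Fin ρ → K) : MvPolynomial (Fin ρ) ℤ →ₐ[ℤ] MvPolynomial (Fin ρ) K :=
  aeval fun j => C (δ j) * (1 + X j)

theorem coeff_ph (δ : Fin ρ → K) (F : MvPolynomial (Fin ρ) ℤ) {S : Finset (Fin ρ →₀ ℕ)}
    (h : F.support ⊆ S) (a : Fin ρ →₀ ℕ) : coeff a (ph δ F) =
      ∑ z ∈ S, ((coeff z F * ∏ j, ((z j).choose (a j) : ℤ) : ℤ) : K) * ∏ j, δ j ^ z j := by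
  rw [← Finset.sum_subset h fun z _ hz => by simp [notMem_support_iff.1 hz]]
  conv_lhs => rw [F.as_sum, map_sum, coeff_sum]
  refine Finset.sum_congr rfl fun z _ => ?_
  rw [ph, aeval_monomial, Finsupp.prod_fintype _ _ fun _ => pow_zero _]
  simp only [mul_pow, Finset.prod_mul_distrib, ← map_pow, ← map_prod]
  rw [eq_intCast, ← map_intCast (C : K →+* _), coeff_C_mul, coeff_C_mul, H39.RAD.coeff_binom]
  push_cast
  ring

theorem two_le (x : ℝ) : Real.exp x + Real.exp x ≤ Real.exp (x + 1) := by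
  rw [Real.exp_add]
  nlinarith [Real.add_one_le_exp 1, Real.exp_pos x]

theorem prod_le (hβ : 0 ≤ β) {z : Fin ρ →₀ ℕ} {n : ℕ} (h : ∀ i, z i ≤ n) :
    ∏ j, Real.exp (β + 1) ^ z j ≤ Real.exp (ρ * n * (β + 1)) := by
  rw [Finset.prod_pow_eq_pow_sum, ← Real.exp_nat_mul]
  have := Finset.sum_le_card_nsmul Finset.univ z n fun i _ => h i
  rw [Finset.card_univ, Fintype.card_fin, smul_eq_mul] at this
  gcongr
  exact_mod_cast this

theorem bd_ph (hr : 0 ≤ r) (h1 : r ≤ 1) (hβ : 0 ≤ β) {δ : Fin ρ → K}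
    (hδ : ∀ j, f (δ j) ≤ Real.exp β) {F : MvPolynomial (Fin ρ) ℤ} {n : ℕ}
    (h : ∀ z ∈ F.support, ∀ i, z i ≤ n) (hc : ∑ z ∈ F.support, |((coeff z F : ℤ) : ℝ)| ≤ c) :
    Bd f r (ph δ F) (c * Real.exp (ρ * n * (β + 1))) := by
  have hj : ∀ j, Bd f r (C (δ j) * (1 + X j) : MvPolynomial (Fin ρ) K) (Real.exp (β + 1)) :=
    fun j => by
      have := bd_sum hr Finset.univ fun (i : Fin 2) _ =>
        bd_mon (f := f) hr (Finsupp.single j i) (δ j)
      simp only [Fin.sum_univ_two] at this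
      rw [mul_add, mul_one, C_mul_X_eq_monomial]
      refine Bd.mono (by simpa using this) (le_trans (add_le_add (hδ j) ?_) (two_le β))
      exact (mul_le_of_le_one_right (f.nonneg _) h1).trans (hδ j)
  rw [F.as_sum, map_sum]
  refine (bd_sum hr _ (b := fun z => |((coeff z F : ℤ) : ℝ)| * Real.exp (ρ * n * (β + 1)))
    fun z hz => ?_).mono ?_
  · rw [ph, aeval_monomial, Finsupp.prod_fintype _ _ fun _ => pow_zero _, eq_intCast,
      ← map_intCast (C : K →+* _)]
    exact ((bd_C hr _).mul hr (bd_prod hr _ fun j => (hj j).pow hr _)).mono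
      (mul_le_mul (av_int f _) (prod_le hβ (h z hz)) (by positivity) (abs_nonneg _))
  · rw [← Finset.sum_mul]
    exact mul_le_mul_of_nonneg_right hc (by positivity)

theorem pow_sub {ξ : K} {e : ℝ} (h1 : f ξ ≤ Real.exp 1) (h : f (ξ - 1) ≤ Real.exp e) (s : ℕ) :
    f (ξ ^ s - 1) ≤ Real.exp (e + 2 * s) := by
  induction s with
  | zero => simpa using (Real.exp_pos e).le
  | succ s ih =>
    have h2 := f.add_le (ξ * (ξ ^ s - 1)) (ξ - 1)
    rw [show ξ * (ξ ^ s - 1) + (ξ - 1) = ξ ^ (s + 1) - 1 by ring, map_mul] at h2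
    have h3 := mul_le_mul h1 ih (f.nonneg _) (Real.exp_pos _).le
    rw [← Real.exp_add] at h3
    refine h2.trans ((add_le_add h3 (h.trans (Real.exp_le_exp.2 ?_))).trans
      ((two_le _).trans (le_of_eq (congrArg _ (by push_cast; ring)))))
    linarith [s.cast_nonneg (α := ℝ)]

end RAD

open RAD in
theorem rowRAD : RowRAD := by
  intro K _ f ρ Y G m d S ω H δ ξ t s a β μ w hβ hμ hδ hG hm hω hξ hξ' hY ht htd hH hw hw' hs
  have hr := (Real.exp_pos (-μ)).le
  have h1 : Real.exp (-μ) ≤ 1 := Real.exp_le_one_iff.2 (by linarith)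
  have e0 : coeff 0 (ph δ ω) = aeval δ ω := by
    rw [coeff_ph δ ω subset_rfl, aeval_def, eval₂_eq']
    simp
  have p0 : (0 : ℝ) ≤ ρ * G := by positivity
  have b1 : Bd f (Real.exp (-μ)) (ph δ ω) (Real.exp (-μ + m + ρ * G * (β + 1))) := by
    refine ((bd_ph zero_le_one le_rfl hβ hδ hG (c := m) (by exact_mod_cast hm)).low hr h1).mono ?_
    have h2 : Real.exp (ρ * G * β - μ) ≤ Real.exp (-μ) * Real.exp (ρ * G * (β + 1)) := by
      rw [← Real.exp_add]
      exact Real.exp_le_exp.2 (by linarith)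
    have h3 := mul_le_mul_of_nonneg_left (Real.add_one_le_exp m)
      (mul_nonneg hr (Real.exp_pos (ρ * G * (β + 1))).le)
    rw [e0, Real.exp_add, Real.exp_add]
    linarith
  have b2 := ((b1.pow hr Y).mul hr (bd_ph hr h1 hβ hδ
    (fun z hz i => (mem_bx.1 (hH hz) i).le) hw)) {Finsupp.equivFunOnFinite.symm a}
  rw [← map_pow, ← map_mul, Finset.sum_singleton, coeff_ph δ _ ht, ← Real.exp_nat_mul,
    ← Real.exp_nat_mul, ← le_div_iff₀ (Real.exp_pos _), ← Real.exp_add, ← Real.exp_add,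
    ← Real.exp_sub] at b2
  simp only [Finsupp.equivFunOnFinite_symm_apply_apply] at b2
  have b3 : f (∑ z ∈ t, (((coeff z (ω ^ Y * H) * ∏ j, ((z j).choose (a j) : ℤ) : ℤ) : K) *
      ∏ j, δ j ^ z j) * (ξ ^ s z - 1)) ≤
      Real.exp w * (Real.exp (ρ * d * (β + 1)) * Real.exp (-(Y * μ) + 2 * S)) := by
    refine (f.sum_le _ _).trans (le_trans (Finset.sum_le_sum fun z hz => ?_)
      ((Finset.sum_mul _ _ _).ge.trans (mul_le_mul_of_nonneg_right hw' (by positivity))))
    rw [Int.cast_mul, Int.cast_prod, mul_assoc _ _ (∏ j, δ j ^ z j), ← Finset.prod_mul_distrib,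
      mul_assoc, map_mul, map_mul, map_prod]
    refine mul_le_mul (av_int f _) (mul_le_mul (le_trans (Finset.prod_le_prod
      (fun _ _ => f.nonneg _) fun j _ => ?_) (prod_le hβ fun i => (mem_bx.1 (htd hz) i).le))
      ((pow_sub hξ' hξ _).trans ?_) (f.nonneg _) (by positivity)) (by positivity) (abs_nonneg _)
    · rw [map_mul, map_pow, Real.exp_add, mul_pow, mul_comm]
      refine mul_le_mul (pow_le_pow_left₀ (f.nonneg _) (hδ j) _) ((av_int f _).trans (le_trans ?_
        (pow_le_pow_left₀ zero_le_two (by linarith [Real.add_one_le_exp 1]) _))) (f.nonneg _)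
        (by positivity)
      exact_mod_cast Nat.choose_le_two_pow _ _
    · have := hs z hz
      gcongr
  rw [← Real.exp_add, ← Real.exp_add] at b3
  have hY' : (G : ℝ) * Y ≤ d := by exact_mod_cast hY
  have p1 := mul_le_mul_of_nonneg_left hY' (by positivity : (0 : ℝ) ≤ ρ * (β + 1))
  have p2 : (0 : ℝ) ≤ (∑ j, (a j : ℝ)) * μ := by positivity
  have p3 : (0 : ℝ) ≤ Y * m := by positivity
  have p4 : (0 : ℝ) ≤ ρ * d * (β + 1) := by positivity
  have p5 : (0 : ℝ) ≤ S := by positivity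
  refine le_trans (le_of_eq ?_) ((f.add_le _ _).trans ((add_le_add
    (b2.trans (Real.exp_le_exp.2 ?_)) (b3.trans (Real.exp_le_exp.2 ?_))).trans (two_le _)))
  · rw [← Finset.sum_add_distrib]
    exact congrArg f (Finset.sum_congr rfl fun z _ => by ring)
  · push_cast
    linarith
  · linarith

end Pool.Agent.MP_542436_nt.H96N
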