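import Pool.Agent.MP_542436_nt.H96N.Spec

/-! Vanishing and splitting of sums, by the product formula. -/

set_option autoImplicit false

namespace Pool.Agent.MP_542436_nt.H96N

namespace SPL

variable {K V P ι : Type} [Field K] [Fintype V] [Fintype P] {D : Dat K V P} {t : Finset ι}
  {x : P → ℤ} {a b : K} {c : ι → ℤ} {s : ι → ℕ} {f : ι → P → ℤ} {σ : ι → ℝ} {S : ℕ} {h w ε : ℝ}

theorem frac (ha : a ≠ 0) (hb : b ≠ 0) {n : ℕ} (hn : n ≤ S) (v : V) :
    D.av v (b ^ S * (a / b) ^ n) ≤ Real.exp (S * D.hv a b v) := by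
  have h1 : (a / b) ^ n ≠ 0 := pow_ne_zero _ (div_ne_zero ha hb)
  rw [← D.exp_lg v (mul_ne_zero (pow_ne_zero _ hb) h1), D.lg_mul v (pow_ne_zero _ hb) h1,
    D.lg_pow, D.lg_pow, D.lg_div v ha hb, Real.exp_le_exp, Dat.hv]
  have h2 : (n : ℝ) ≤ S := by exact_mod_cast hn
  have h3 : (0 : ℝ) ≤ n := n.cast_nonneg
  nlinarith [mul_nonneg h3 (sub_nonneg.2 (le_abs_self (D.lg v a))),
    mul_nonneg (sub_nonneg.2 h2) (sub_nonneg.2 (le_abs_self (D.lg v b))),
    mul_nonneg (sub_nonneg.2 h2) (abs_nonneg (D.lg v a)), mul_nonneg h3 (abs_nonneg (D.lg v b))]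

theorem bound (H : D.Trm t x a b c s f σ S h w ε) {u : Finset ι} (hu : u ⊆ t) (v : V) {m : ℝ}
    (hm : ∀ i ∈ u, σ i * D.lg v (D.pw x) ≤ m) :
    D.av v (b ^ S * ∑ i ∈ u, c i * ((a / b) ^ s i * D.pw (f i))) ≤
      Real.exp (w + S * D.hv a b v + m + ε * D.lam v) := by
  rw [Finset.mul_sum]
  refine ((D.av v).sum_le _ _).trans ?_
  have h1 : ∀ i ∈ u, D.av v (b ^ S * (c i * ((a / b) ^ s i * D.pw (f i)))) ≤
      |(c i : ℝ)| * Real.exp (S * D.hv a b v + m + ε * D.lam v) := by
    intro i hi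
    have h2 : D.av v (D.pw (f i)) ≤ Real.exp (m + ε * D.lam v) := by
      rw [← D.exp_lg v (D.pw_ne _), Real.exp_le_exp]
      linarith [hm i hi, (abs_le.1 (D.near (H.near i (hu hi)) v)).2]
    rw [mul_left_comm, ← mul_assoc (b ^ S), map_mul, map_mul, add_assoc, Real.exp_add]
    exact mul_le_mul (av_int _ _) (mul_le_mul (frac H.a0 H.b0 (H.ss i (hu hi)) v) h2
      ((D.av v).nonneg _) (Real.exp_pos _).le)
      (mul_nonneg ((D.av v).nonneg _) ((D.av v).nonneg _)) (abs_nonneg _)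
  refine (Finset.sum_le_sum h1).trans ?_
  rw [← Finset.sum_mul, add_assoc w, add_assoc w, Real.exp_add w]
  refine mul_le_mul_of_nonneg_right (le_trans ?_ H.sc) (Real.exp_pos _).le
  exact Finset.sum_le_sum_of_subset_of_nonneg hu fun _ _ _ => abs_nonneg _

theorem zero (H : D.Trm t x a b c s f σ S h w ε) {u : Finset ι} (hu : u ⊆ t) (g : V → ℝ)
    (hg : ∀ v, D.av v (b ^ S * ∑ i ∈ u, c i * ((a / b) ^ s i * D.pw (f i))) ≤ Real.exp (g v))
    (hs : ∑ v, g v < 0) : ∑ i ∈ u, c i * ((a / b) ^ s i * D.pw (f i)) = 0 := by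
  by_contra h0
  have h1 := mul_ne_zero (pow_ne_zero S H.b0) h0
  have h2 : b ^ S * ∑ i ∈ u, c i * ((a / b) ^ s i * D.pw (f i)) ∈ D.A := by
    rw [Finset.mul_sum]
    refine sum_mem fun i hi => ?_
    obtain ⟨r, hr⟩ := Nat.exists_eq_add_of_le (H.ss i (hu hi))
    have h3 : b ^ S * (c i * ((a / b) ^ s i * D.pw (f i))) =
        c i * (a ^ s i * b ^ r * D.pw (f i)) := by
      have h4 := pow_ne_zero (s i) H.b0
      rw [hr, pow_add, div_pow]
      field_simp
    rw [h3]
    exact mul_mem (intCast_mem _ _)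
      (mul_mem (mul_mem (pow_mem H.ha _) (pow_mem H.hb _)) (D.pw_mem _))
  refine absurd ((D.pf _ h2 h1).trans (Finset.sum_le_sum fun v _ => ?_)) (not_le.2 hs)
  exact (Real.log_le_iff_le_exp ((D.av v).pos h1)).2 (hg v)

theorem total (H : D.Trm t x a b c s f σ S h w ε) (r : ℝ) :
    ∑ v, (w + S * D.hv a b v + r * D.lg v (D.pw x) + ε * D.lam v) ≤
      Fintype.card V * w + S * h + ε * D.Lam := by
  simp only [Finset.sum_add_distrib, ← Finset.mul_sum, D.sum_lg_pw, Finset.sum_const,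
    Finset.card_univ, nsmul_eq_mul, Dat.Lam]
  linarith [mul_le_mul_of_nonneg_left H.sh S.cast_nonneg]

end SPL

open SPL in
theorem rowSPL : RowSPL where
  van := by
    classical
    intro K V P ι _ _ _ D t x a b c s f σ S h w ε σ₀ n T B H hn hσ hB hlt
    refine zero H subset_rfl (fun v => w + S * D.hv a b v + σ₀ * D.lg v (D.pw x) + ε * D.lam v +
      (n * max (D.lg v (D.pw x)) 0 +
        if v ∈ T then |σ₀| * |D.lg v (D.pw x)| + B v else 0)) (fun v => ?_) ?_
    · split_ifs with hv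
      · have h1 := frac (D := D) H.a0 H.b0 S.zero_le v
        rw [pow_zero, mul_one] at h1
        rw [map_mul]
        refine (mul_le_mul h1 (hB v hv) ((D.av v).nonneg _) (Real.exp_pos _).le).trans ?_
        rw [← Real.exp_add, Real.exp_le_exp, ← abs_mul]
        linarith [H.hw, mul_nonneg H.he (D.lam_nonneg v), neg_abs_le (σ₀ * D.lg v (D.pw x)),
          mul_nonneg hn (le_max_right (D.lg v (D.pw x)) 0)]
      · refine (bound H subset_rfl v (m := σ₀ * D.lg v (D.pw x) + n * max (D.lg v (D.pw x)) 0)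
          fun i hi => ?_).trans (le_of_eq (by ring_nf))
        obtain ⟨h1, h2⟩ := hσ i hi
        rcases le_total (D.lg v (D.pw x)) 0 with h3 | h3
        · rw [max_eq_right h3]
          nlinarith
        · rw [max_eq_left h3]
          nlinarith
    · rw [Finset.sum_add_distrib, Finset.sum_add_distrib (f := fun v => n * _), ← Finset.mul_sum,
        Finset.sum_ite_mem, Finset.univ_inter]
      rw [Dat.Ht] at hlt
      linarith [total H σ₀]
  spl := by
    intro K V P ι _ _ _ D t x a b c s f σ S h w ε σ₁ γ H hσ h0 hlt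
    refine zero H (Finset.filter_subset _ _)
      (fun v => w + S * D.hv a b v + (σ₁ + γ) * D.lg v (D.pw x) + ε * D.lam v -
        γ * max (D.lg v (D.pw x)) 0) (fun v => ?_) ?_
    · rcases le_total (D.lg v (D.pw x)) 0 with h3 | h3
      · rw [← Finset.sum_filter_add_sum_filter_not t fun i => σ i ≤ σ₁] at h0
        rw [eq_neg_of_add_eq_zero_left h0, mul_neg, AbsoluteValue.map_neg, max_eq_right h3,
          mul_zero, sub_zero]
        refine bound H (Finset.filter_subset _ _) v fun i hi => ?_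
        obtain ⟨h1, h2⟩ := Finset.mem_filter.1 hi
        exact mul_le_mul_of_nonpos_right ((hσ i h1).resolve_left h2) h3
      · rw [max_eq_left h3]
        refine (bound H (Finset.filter_subset _ _) v (m := σ₁ * D.lg v (D.pw x))
          fun i hi => ?_).trans (le_of_eq (by ring_nf))
        exact mul_le_mul_of_nonneg_right (Finset.mem_filter.1 hi).2 h3
    · rw [Finset.sum_sub_distrib, ← Finset.mul_sum]
      rw [Dat.Ht] at hlt
      linarith [total H (σ₁ + γ)]

end Pool.Agent.MP_542436_nt.H96N
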