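import Pool.Agent.MP_542436_nt.H96N.Spec
import Pool.Agent.MP_542436_nt.H39.STR

/-! A small polynomial value between independent positions. -/

set_option autoImplicit false

namespace Pool.Agent.MP_542436_nt.H96N

open MvPolynomial

open H39.STR (sum_bound l1) in
theorem rowSTR : H39.RowREL → RowPIG → RowSTR := by
  intro hR hP k Φ
  obtain ⟨G₁, hG⟩ := hR (2 * k) fun G => Φ (2 * G)
  refine ⟨4 * k ^ 2 * G₁ ^ 2 + 2 * k ^ 2 * G₁ + 2 * k * G₁ + 2 * G₁ + 1,
    fun K V P _ _ _ D x h T μ Q M N q hQ hN hh hC hM hk => ?_⟩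
  obtain ⟨t, g, c, i₀, c1, t1, t2, g1, g2⟩ := hP K V P D x h T μ k Q M N q (by omega) hN hh hC hM hk
  obtain ⟨ρ, G, A, B, h1, h2, h3, h4, h5, h6⟩ := hG t
  have Q0 : (0 : ℤ) ≤ Q := Int.natCast_nonneg _
  have N0 : (0 : ℤ) < N := by exact_mod_cast hN
  have h2' : (G : ℤ) ≤ G₁ := by exact_mod_cast h2
  have h1' : (ρ : ℤ) ≤ 2 * k := by exact_mod_cast h1
  set κ : Fin ρ → ℤ := fun j => ∑ i, B j i * t i with hκ
  set e : Fin ρ → P → ℤ := fun j p => ∑ i, B j i * g i p with he
  let z : Fin (2 * k) → Fin ρ →₀ ℕ := fun i =>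
    Finsupp.equivFunOnFinite.symm fun j => (A i j + G).toNat
  have z1 : ∀ i j, (z i j : ℤ) = A i j + G := fun i j =>
    Int.toNat_of_nonneg (by linarith [(abs_le.1 (h3 i j)).1])
  have c2 : ∀ i, |c i| = 1 := fun i => by rcases c1 i with h | h <;> simp [h]
  have e1 : ∀ j p, Q * |N * e j p - κ j * x p| ≤ 2 * k * (G * N) := fun j p => by
    have := sum_bound Q0 (h4 j) fun i => g1 i p
    push_cast at this
    convert this using 3
    simp only [he, hκ, Finset.mul_sum, Finset.sum_mul, ← Finset.sum_sub_distrib]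
    exact Finset.sum_congr rfl fun i _ => by ring
  have e2 : ∀ i p, g i p = ∑ j, A i j * e j p := fun i p => by
    have a1 := sum_bound Q0 (h3 i) fun j => e1 j p
    have a2 := g1 i p
    have a3 : N * (g i p - ∑ j, A i j * e j p) =
        (N * g i p - t i * x p) - ∑ j, A i j * (N * e j p - κ j * x p) := by
      rw [h5 i]
      simp only [mul_sub, Finset.sum_sub_distrib, Finset.mul_sum, Finset.sum_mul, hκ]
      rw [sub_sub_sub_comm]
      simp only [mul_assoc, mul_left_comm (N : ℤ), sub_self, sub_zero]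
    have a4 := mul_le_mul_of_nonneg_left (abs_sub (N * g i p - t i * x p)
      (∑ j, A i j * (N * e j p - κ j * x p))) Q0
    rw [← a3, abs_mul, abs_of_pos N0, mul_add] at a4
    have a5 : (ρ : ℤ) * (G * (2 * k * (G * N))) ≤ 2 * k * (G₁ * (2 * k * (G₁ * N))) := by gcongr
    have a6 : (4 * k ^ 2 * G₁ ^ 2 + 1 : ℤ) < Q := by
      have : 4 * k ^ 2 * G₁ ^ 2 + 1 < Q := by omega
      exact_mod_cast this
    have a7 := mul_lt_mul_of_pos_right a6 N0
    by_contra q
    have a8 : 1 ≤ |g i p - ∑ j, A i j * e j p| := Int.one_le_abs (sub_ne_zero.2 q)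
    have a9 := mul_le_mul_of_nonneg_left (mul_le_mul_of_nonneg_left a8 N0.le) Q0
    linarith
  refine ⟨ρ, 2 * G, κ, e, ∑ i, monomial (z i) (c i), h1, by omega, fun h0 => ?_,
    fun w hw j => ?_, by exact_mod_cast l1 z c c2 _, fun j => ?_, fun j p => ?_, h6,
    fun v hv β hβ hb => ?_⟩
  · have := congrArg (coeff (z i₀)) h0
    rw [coeff_sum, Finset.sum_eq_single i₀ (fun i _ hi => ?_) (by simp), coeff_monomial,
      if_pos rfl, coeff_zero] at this
    · simpa [this] using c2 i₀
    · rw [coeff_monomial, if_neg fun q => t1 i hi ?_]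
      rw [h5 i, h5 i₀]
      refine Finset.sum_congr rfl fun j _ => ?_
      have := z1 i j
      rw [q, z1] at this
      rw [add_right_cancel this]
  · obtain ⟨i, -, hi⟩ := Finset.mem_biUnion.1 (support_sum hw)
    obtain rfl := Finset.mem_singleton.1 (support_monomial_subset hi)
    have := z1 i j
    have := (abs_le.1 (h3 i j)).2
    omega
  · have := sum_bound (Q := 1) zero_le_one (h4 j) fun i => (one_mul _).trans_le (t2 i)
    rw [one_mul] at this
    refine this.trans ?_
    push_cast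
    calc (2 * k : ℤ) * (G * (k * M * Q ^ Fintype.card P)) = 2 * k ^ 2 * G * M * Q ^ Fintype.card P := by ring
      _ ≤ _ := by
        gcongr
        have : (2 * k ^ 2 * G : ℤ) ≤ 2 * k ^ 2 * G₁ := by gcongr
        have : (0 : ℤ) ≤ 4 * k ^ 2 * G₁ ^ 2 + 2 * k * G₁ + 2 * G₁ := by positivity
        linarith
  · refine (e1 j p).trans ?_
    push_cast
    rw [← mul_assoc]
    gcongr
    have : (2 * k * G : ℤ) ≤ 2 * k * G₁ := by gcongr
    have : (0 : ℤ) ≤ 4 * k ^ 2 * G₁ ^ 2 + 2 * k ^ 2 * G₁ + 2 * G₁ := by positivity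
    linarith
  · have : aeval (fun j => D.pw (e j)) (∑ i, monomial (z i) (c i)) =
        (∏ j, D.pw (e j) ^ G) * ∑ i, c i * D.pw (g i) := by
      rw [map_sum, Finset.mul_sum]
      refine Finset.sum_congr rfl fun i _ => ?_
      rw [aeval_monomial, Finsupp.prod_fintype _ _ fun _ => pow_zero _,
        show g i = fun p => ∑ j, A i j * e j p from funext (e2 i),
        D.pw_sum Finset.univ fun j p => A i j * e j p, mul_left_comm, ← Finset.prod_mul_distrib,
        eq_intCast]
      congr 1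
      refine Finset.prod_congr rfl fun j _ => ?_
      rw [D.pw_smul, ← zpow_natCast, z1, add_comm, zpow_add₀ (D.pw_ne _), zpow_natCast]
    have b1 : ∏ j, D.av v (D.pw (e j) ^ G) ≤ Real.exp (ρ * (2 * G : ℕ) * β) := by
      refine (Finset.prod_le_prod (g := fun _ => Real.exp ((2 * G : ℕ) * β))
        (fun j _ => (D.av v).nonneg _) fun j _ => ?_).trans_eq ?_
      · rw [map_pow]
        refine (pow_le_pow_left₀ ((D.av v).nonneg _) (hb j) G).trans ?_
        rw [← Real.exp_nat_mul]
        gcongr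
        omega
      · rw [Finset.prod_const, ← Real.exp_nat_mul, Finset.card_univ, Fintype.card_fin, mul_assoc]
    rw [this, map_mul, map_prod, sub_eq_add_neg, Real.exp_add]
    exact mul_le_mul b1 (g2 v hv) ((D.av v).nonneg _) (Real.exp_pos _).le

end Pool.Agent.MP_542436_nt.H96N
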