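import Pool.Agent.MP_542436_nt.H39.CHN
import Pool.Agent.MP_542436_nt.H39.CNT
import Pool.Agent.MP_542436_nt.H39.COUNT
import Pool.Agent.MP_542436_nt.H39.FAM
import Pool.Agent.MP_542436_nt.H39.FRE
import Pool.Agent.MP_542436_nt.H39.GCD
import Pool.Agent.MP_542436_nt.H39.GR
import Pool.Agent.MP_542436_nt.H39.MUL
import Pool.Agent.MP_542436_nt.H39.REL
import Pool.Agent.MP_542436_nt.H39.TAY
import Pool.Agent.MP_542436_nt.H39.TRA
import Pool.Agent.MP_542436_nt.H39.TRI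
import Pool.Agent.MP_542436_nt.H39.UP
import Pool.Agent.MP_542436_nt.H39.VAL
import Pool.Agent.MP_542436_nt.H39.WIN
import Pool.Agent.MP_542436_nt.H39.Z
import Pool.Agent.MP_542436_nt.H96N.AUXP
import Pool.Agent.MP_542436_nt.H96N.CNT
import Pool.Agent.MP_542436_nt.H96N.COLA
import Pool.Agent.MP_542436_nt.H96N.COLF
import Pool.Agent.MP_542436_nt.H96N.CORE
import Pool.Agent.MP_542436_nt.H96N.DEC
import Pool.Agent.MP_542436_nt.H96N.FIN
import Pool.Agent.MP_542436_nt.H96N.GEN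
import Pool.Agent.MP_542436_nt.H96N.GM
import Pool.Agent.MP_542436_nt.H96N.MID
import Pool.Agent.MP_542436_nt.H96N.PF
import Pool.Agent.MP_542436_nt.H96N.PIG
import Pool.Agent.MP_542436_nt.H96N.RAD
import Pool.Agent.MP_542436_nt.H96N.SPL
import Pool.Agent.MP_542436_nt.H96N.STR

/-! Assembly. -/

set_option autoImplicit false

namespace Pool.Agent.MP_542436_nt.H96N

theorem allZ : H39.RowZ :=
  H39.rowZ (H39.rowMUL H39.rowCHN H39.rowTRI H39.rowFAM (H39.rowFRE H39.rowGCD H39.rowTRA)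
    (H39.rowVAL H39.rowTAY) (H39.rowCOUNT H39.rowGR H39.rowCNT H39.rowUP))

theorem allGM : RowGM :=
  rowGM (rowSTR H39.rowREL rowPIG) (rowCORE H39.rowWIN rowAUX rowRAD rowSPL) allZ

theorem allABCD : RowABCD :=
  rowFIN (rowMID allGM rowPF (rowDEC rowGEN) rowCNT) rowPF rowCOLF rowCOLA

end Pool.Agent.MP_542436_nt.H96N
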