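import Pool.Agent.MP_542436_nt.H96N.Spec

set_option autoImplicit false

namespace Pool.Agent.MP_542436_nt.H96N

open NumberField IsDedekindDomain NumberField.Units NumberField.InfinitePlace
open NumberField.Units.dirichletUnitTheorem
open scoped nonZeroDivisors

namespace GEN

variable (K : Type) [Field K] [NumberField K]

open scoped Classical in
theorem lat : ∃ c : ℝ, 0 ≤ c ∧ ∀ v : logSpace K, ∃ u : (𝓞 K)ˣ,
    ∀ w, |v w + mult w.1 * Real.log (w.1 (u : K))| ≤ c := by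
  set b := (basisUnitLattice K).ofZLatticeBasis ℝ (unitLattice K) with hb
  refine ⟨∑ i, ‖b i‖, by positivity, fun v => ?_⟩
  have h1 : -(ZSpan.floor b v : logSpace K) ∈ unitLattice K := by
    rw [← (basisUnitLattice K).ofZLatticeBasis_span ℝ]
    exact neg_mem (ZSpan.floor b v).2
  obtain ⟨x, -, hx⟩ := h1
  refine ⟨x.toMul, fun w => ?_⟩
  have h2 := (norm_le_pi_norm (ZSpan.fract b v) w).trans (ZSpan.norm_fract_le b v)
  rw [ZSpan.fract_apply, sub_eq_add_neg, ← hx] at h2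
  exact h2

theorem bal : ∃ c : ℝ, 0 ≤ c ∧ ∀ g : K, g ≠ 0 → ∃ u : (𝓞 K)ˣ, ∀ w : InfinitePlace K,
    |Real.log (w (u * g))| ≤ |Real.log (|Algebra.norm ℚ ((u : K) * g)| : ℚ)| + c := by
  classical
  obtain ⟨c, hc, h⟩ := lat K
  set n := Fintype.card {w : InfinitePlace K // w ≠ w₀}
  refine ⟨n * c + c, by positivity, fun g hg => ?_⟩
  obtain ⟨u, hu⟩ := h fun w => mult w.1 * Real.log (w.1 g)
  have h0 : (u : K) * g ≠ 0 := mul_ne_zero (Units.coe_ne_zero u) hg
  have h1 : ∀ w : {w : InfinitePlace K // w ≠ w₀},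
      |mult w.1 * Real.log (w.1 (u * g))| ≤ c := fun w => by
    rw [map_mul, Real.log_mul (pos_at_place u _).ne' (pos_iff.2 hg).ne', mul_add, add_comm]
    exact hu w
  have h2 : ∑ w : InfinitePlace K, mult w * Real.log (w (u * g)) =
      Real.log (|Algebra.norm ℚ ((u : K) * g)| : ℚ) := by
    rw [← prod_eq_abs_norm, Real.log_prod fun w _ => (pow_pos (pos_iff.2 h0) _).ne']
    simp only [Real.log_pow]
  rw [Fintype.sum_eq_add_sum_subtype_ne _ w₀] at h2
  have h3 : |∑ w : {w : InfinitePlace K // w ≠ w₀}, mult w.1 * Real.log (w.1 (u * g))| ≤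
      n * c := by
    refine (Finset.abs_sum_le_sum_abs _ _).trans ((Finset.sum_le_sum fun w _ => h1 w).trans ?_)
    simp [n]
  refine ⟨u, fun w => ?_⟩
  have h4 : |Real.log (w (u * g))| ≤ |mult w * Real.log (w (u * g))| := by
    rw [abs_mul, Nat.abs_cast]
    exact le_mul_of_one_le_left (abs_nonneg _) one_le_mult
  refine h4.trans ?_
  by_cases hw : w = w₀
  · rw [hw, eq_sub_of_add_eq h2]
    exact (abs_sub _ _).trans (by linarith)
  · have h5 := h1 ⟨w, hw⟩
    have h6 : 0 ≤ (n : ℝ) * c := by positivity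
    linarith [abs_nonneg (Real.log (|Algebra.norm ℚ ((u : K) * g)| : ℚ))]

end GEN

theorem rowGEN : RowGEN := by
  intro K _ _
  classical
  obtain ⟨c, hc, h⟩ := GEN.bal K
  set n := Fintype.card (ClassGroup (𝓞 K)) with hn
  refine ⟨n, n + c / Real.log 2, Fintype.card_pos, fun p => ?_⟩
  have hp : p.asIdeal ∈ (Ideal (𝓞 K))⁰ := mem_nonZeroDivisors_of_ne_zero p.ne_bot
  have h1 : ClassGroup.mk0 ⟨p.asIdeal ^ n, pow_mem hp n⟩ = 1 := by
    rw [← pow_card_eq_one (x := ClassGroup.mk0 ⟨p.asIdeal, hp⟩), ← map_pow]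
    rfl
  obtain ⟨g, hg⟩ := (ClassGroup.mk0_eq_one_iff _).1 h1
  have g0 : g ≠ 0 := by
    rintro rfl
    exact pow_ne_zero n p.ne_bot (by simpa using hg)
  obtain ⟨u, hu⟩ := h g (by exact_mod_cast g0)
  have h2 : Ideal.span {(u : 𝓞 K) * g} = p.asIdeal ^ n := by
    rw [Ideal.span_singleton_mul_left_unit u.isUnit]
    exact hg.symm
  refine ⟨u * g, h2, fun φ => ?_⟩
  have h3 : Ideal.absNorm p.asIdeal ^ n = (Algebra.norm ℤ ((u : 𝓞 K) * g)).natAbs := by
    rw [← Ideal.absNorm_span_singleton, h2, map_pow]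
  have h4 : ((|Algebra.norm ℚ (((u : 𝓞 K) : K) * g)| : ℚ) : ℝ) =
      (Ideal.absNorm p.asIdeal : ℕ) ^ n := by
    have := Algebra.coe_norm_int ((u : 𝓞 K) * g)
    push_cast at this
    rw [← this, ← Nat.cast_pow, h3, Nat.cast_natAbs]
    push_cast
    rfl
  have h5 : Real.log 2 ≤ lN p := Real.log_le_log (by norm_num)
    (by exact_mod_cast NumberField.HeightOneSpectrum.one_lt_absNorm p)
  have h6 : 0 < Real.log 2 := Real.log_pos (by norm_num)
  have h7 := hu (InfinitePlace.mk φ)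
  rw [h4, Real.log_pow, InfinitePlace.apply] at h7
  have h8 : c ≤ c / Real.log 2 * lN p := by
    rw [div_mul_eq_mul_div, le_div_iff₀ h6]
    gcongr
  have h9 : |(n : ℝ) * lN p| = n * lN p := abs_of_nonneg (mul_nonneg n.cast_nonneg (by linarith))
  calc _ ≤ |(n : ℝ) * lN p| + c := h7
    _ ≤ _ := by rw [h9, add_mul]; linarith

end Pool.Agent.MP_542436_nt.H96N
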