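import Pool.Agent.MP_542436_nt.H39.Spec

/-! Statements of the pieces: approximation to one at several places of a field with a product
formula, and the case of number fields. -/

set_option autoImplicit false

namespace Pool.Agent.MP_542436_nt.H96N

open MvPolynomial NumberField IsDedekindDomain
open Pool.Agent.MP_542436_nt.H39 (bx ZP)

/-! ### Part A: fields with finitely many places -/

/-- places, a ring of integers with a product formula, and units -/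
structure Dat (K V P : Type) [Field K] [Fintype V] [Fintype P] where
  av : V → AbsoluteValue K ℝ
  A : Subring K
  π : P → Kˣ
  pf : ∀ z ∈ A, z ≠ 0 → 0 ≤ ∑ v, Real.log (av v z)
  mem : ∀ p, (π p : K) ∈ A ∧ ((π p)⁻¹ : Kˣ).1 ∈ A

theorem av_int {K : Type} [Field K] (f : AbsoluteValue K ℝ) (c : ℤ) : f c ≤ |(c : ℝ)| := by
  obtain ⟨n, rfl | rfl⟩ := c.eq_nat_or_neg
  · simpa using f.apply_nat_le_self n
  · simpa using f.apply_nat_le_self n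

namespace Dat

variable {K V P : Type} [Field K] [Fintype V] [Fintype P] (D : Dat K V P)

/-- a product of powers -/
def pw (f : P → ℤ) : K := (∏ p, D.π p ^ f p : Kˣ).1

/-- logarithm of an absolute value -/
noncomputable def lg (v : V) (z : K) : ℝ := Real.log (D.av v z)

/-- local size of the generators -/
noncomputable def lam (v : V) : ℝ := ∑ p, |D.lg v (D.π p)|

/-- size of the generators -/
noncomputable def Lam : ℝ := ∑ v, D.lam v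

/-- height of a product of powers -/
noncomputable def Ht (x : P → ℤ) : ℝ := ∑ v, max (D.lg v (D.pw x)) 0

/-- local size of a fraction -/
noncomputable def hv (a b : K) (v : V) : ℝ := |D.lg v a| + |D.lg v b|

theorem pw_ne (f : P → ℤ) : D.pw f ≠ 0 := Units.ne_zero _

theorem pw_zero : D.pw 0 = 1 := by simp [pw]

theorem pw_add (f g : P → ℤ) : D.pw (f + g) = D.pw f * D.pw g := by
  simp only [pw, Pi.add_apply, zpow_add, Finset.prod_mul_distrib, Units.val_mul]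

theorem pw_neg (f : P → ℤ) : D.pw (-f) = (D.pw f)⁻¹ :=
  eq_inv_of_mul_eq_one_left (by rw [← pw_add, neg_add_cancel, pw_zero])

theorem pw_smul (n : ℤ) (f : P → ℤ) : D.pw (fun p => n * f p) = D.pw f ^ n := by
  simp only [pw, ← Units.val_zpow_eq_zpow_val, ← Finset.prod_zpow, ← zpow_mul, mul_comm]

theorem pw_sum {ι : Type} (t : Finset ι) (f : ι → P → ℤ) :
    D.pw (fun p => ∑ j ∈ t, f j p) = ∏ j ∈ t, D.pw (f j) := by
  classical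
  induction t using Finset.induction_on with
  | empty => simp only [Finset.sum_empty, Finset.prod_empty]; exact D.pw_zero
  | insert a s ha ih =>
    simp only [Finset.sum_insert ha, Finset.prod_insert ha]
    rw [← ih, ← pw_add]
    rfl

theorem pw_comb {ρ : ℕ} (z : Fin ρ → ℕ) (e : Fin ρ → P → ℤ) (s : ℕ) (x : P → ℤ) :
    D.pw (fun p => ∑ j, z j * e j p + s * x p) = D.pw x ^ s * ∏ j, D.pw (e j) ^ z j := by
  refine (D.pw_add (fun p => ∑ j, z j * e j p) fun p => s * x p).trans ?_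
  rw [D.pw_sum Finset.univ fun j p => z j * e j p, mul_comm]
  simp only [pw_smul, zpow_natCast]

theorem pw_mem (f : P → ℤ) : D.pw f ∈ D.A := by
  rw [pw, Units.coe_prod]
  refine prod_mem fun p _ => ?_
  obtain ⟨n, h | h⟩ := (f p).eq_nat_or_neg <;> rw [h]
  · simpa using pow_mem (D.mem p).1 n
  · simpa using pow_mem (D.mem p).2 n

theorem exp_lg (v : V) {z : K} (h : z ≠ 0) : Real.exp (D.lg v z) = D.av v z :=
  Real.exp_log ((D.av v).pos h)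

theorem lg_mul (v : V) {y z : K} (hy : y ≠ 0) (hz : z ≠ 0) :
    D.lg v (y * z) = D.lg v y + D.lg v z := by
  rw [lg, map_mul, Real.log_mul ((D.av v).ne_zero hy) ((D.av v).ne_zero hz)]
  rfl

theorem lg_div (v : V) {y z : K} (hy : y ≠ 0) (hz : z ≠ 0) :
    D.lg v (y / z) = D.lg v y - D.lg v z := by
  rw [lg, map_div₀, Real.log_div ((D.av v).ne_zero hy) ((D.av v).ne_zero hz)]
  rfl

theorem lg_pow (v : V) (y : K) (n : ℕ) : D.lg v (y ^ n) = n * D.lg v y := by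
  rw [lg, map_pow, Real.log_pow]
  rfl

theorem lg_pw (v : V) (f : P → ℤ) : D.lg v (D.pw f) = ∑ p, f p * D.lg v (D.π p) := by
  rw [lg, pw, Units.coe_prod, map_prod, Real.log_prod fun p _ => (D.av v).ne_zero (Units.ne_zero _)]
  refine Finset.sum_congr rfl fun p _ => ?_
  rw [Units.val_zpow_eq_zpow_val, map_zpow₀, Real.log_zpow]
  rfl

theorem sum_lg_pw (f : P → ℤ) : ∑ v, D.lg v (D.pw f) = 0 := by
  have h1 := D.pf _ (D.pw_mem f) (D.pw_ne f)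
  have h2 := D.pf _ (D.pw_mem (-f)) (D.pw_ne _)
  simp only [pw_neg, map_inv₀, Real.log_inv, Finset.sum_neg_distrib] at h2
  exact le_antisymm (by simpa [lg] using h2) h1

theorem lam_nonneg (v : V) : 0 ≤ D.lam v := Finset.sum_nonneg fun _ _ => abs_nonneg _

theorem lam_le (v : V) : D.lam v ≤ D.Lam :=
  Finset.single_le_sum (fun v _ => D.lam_nonneg v) (Finset.mem_univ v)

theorem hv_nonneg (a b : K) (v : V) : 0 ≤ D.hv a b v := add_nonneg (abs_nonneg _) (abs_nonneg _)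

theorem near {f x : P → ℤ} {σ ε : ℝ} (h : ∀ p, |(f p : ℝ) - σ * x p| ≤ ε) (v : V) :
    |D.lg v (D.pw f) - σ * D.lg v (D.pw x)| ≤ ε * D.lam v := by
  rw [lg_pw, lg_pw, Finset.mul_sum, ← Finset.sum_sub_distrib, lam, Finset.mul_sum]
  refine (Finset.abs_sum_le_sum_abs _ _).trans (Finset.sum_le_sum fun p _ => ?_)
  rw [← mul_assoc, ← sub_mul, abs_mul]
  exact mul_le_mul_of_nonneg_right (h p) (abs_nonneg _)

theorem lg_le {a b : K} (ha : a ≠ 0) (hb : b ≠ 0) (x : P → ℤ) (v : V) :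
    |D.lg v (D.pw x)| ≤ |D.lg v (a / b * D.pw x)| + D.hv a b v := by
  rw [D.lg_mul v (div_ne_zero ha hb) (D.pw_ne x), D.lg_div v ha hb, hv]
  have h1 := abs_sub (D.lg v a - D.lg v b + D.lg v (D.pw x)) (D.lg v a - D.lg v b)
  rw [add_sub_cancel_left] at h1
  linarith [abs_sub (D.lg v a) (D.lg v b)]

/-- products of powers with exponents near a small multiple of `x` -/
def Near (x : P → ℤ) (h : ℝ) (γ : K) : Prop :=
  ∃ (g : P → ℤ) (τ : ℝ), γ = D.pw g ∧ |τ| * h ≤ 1 ∧ ∀ p, |(g p : ℝ) - τ * x p| ≤ 1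

/-- a colouring with `q` colours such that sums of one colour are close -/
def Col (x : P → ℤ) (h : ℝ) (T : Finset V) (μ : V → ℝ) (k q : ℕ) : Prop :=
  ∃ col : K → Fin q, ∀ γ γ' : Fin k → K, (∀ i, D.Near x h (γ i) ∧ D.Near x h (γ' i)) →
    col (∑ i, γ i) = col (∑ i, γ' i) → ∀ v ∈ T, D.av v (∑ i, γ i - ∑ i, γ' i) ≤ Real.exp (-μ v)

/-- the number that is close to one -/
structure Apx (x : P → ℤ) (a b : K) (h : ℝ) (T : Finset V) (μ : V → ℝ) (Y : ℕ) : Prop where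
  ha : a ∈ D.A
  hb : b ∈ D.A
  a0 : a ≠ 0
  b0 : b ≠ 0
  one : 1 ≤ h
  sh : ∑ v, D.hv a b v ≤ h
  pos : ∀ v ∈ T, 0 ≤ μ v
  apx : ∀ v ∈ T, D.av v (a / b * D.pw x - 1) ≤ Real.exp (-(Y * μ v))
  unit : ∀ v ∈ T, |D.lg v (a / b * D.pw x)| ≤ 1

/-- the terms of a sum -/
structure Trm {ι : Type} (t : Finset ι) (x : P → ℤ) (a b : K) (c : ι → ℤ) (s : ι → ℕ)
    (f : ι → P → ℤ) (σ : ι → ℝ) (S : ℕ) (h w ε : ℝ) : Prop where
  ha : a ∈ D.A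
  hb : b ∈ D.A
  a0 : a ≠ 0
  b0 : b ≠ 0
  sh : ∑ v, D.hv a b v ≤ h
  hw : 0 ≤ w
  sc : ∑ i ∈ t, |(c i : ℝ)| ≤ Real.exp w
  ss : ∀ i ∈ t, s i ≤ S
  he : 0 ≤ ε
  near : ∀ i ∈ t, ∀ p, |(f i p : ℝ) - σ i * x p| ≤ ε

end Dat

/-- two sums of one colour -/
def RowPIG : Prop :=
  ∀ (K V P : Type) [Field K] [Fintype V] [Fintype P] (D : Dat K V P) (x : P → ℤ) (h : ℝ)
    (T : Finset V) (μ : V → ℝ) (k Q M N q : ℕ), 1 ≤ Q → 1 ≤ N → 0 ≤ h → D.Col x h T μ k q →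
    q < M ^ k → (k * M * Q ^ Fintype.card P : ℕ) * h ≤ N →
    ∃ (t : Fin (2 * k) → ℤ) (g : Fin (2 * k) → P → ℤ) (c : Fin (2 * k) → ℤ) (i₀ : Fin (2 * k)),
      (∀ i, c i = 1 ∨ c i = -1) ∧ (∀ i, i ≠ i₀ → t i ≠ t i₀) ∧
      (∀ i, |t i| ≤ k * M * Q ^ Fintype.card P) ∧ (∀ i p, Q * |N * g i p - t i * x p| ≤ N) ∧
      ∀ v ∈ T, D.av v (∑ i, c i * D.pw (g i)) ≤ Real.exp (-μ v)

/-- a small polynomial value between independent positions -/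
def RowSTR : Prop :=
  ∀ (k : ℕ) (Φ : ℕ → ℕ), ∃ G₀ : ℕ, ∀ (K V P : Type) [Field K] [Fintype V] [Fintype P]
    (D : Dat K V P) (x : P → ℤ) (h : ℝ) (T : Finset V) (μ : V → ℝ) (Q M N q : ℕ),
    G₀ < Q → 1 ≤ N → 0 ≤ h → D.Col x h T μ k q → q < M ^ k →
    (k * M * Q ^ Fintype.card P : ℕ) * h ≤ N →
    ∃ (ρ G : ℕ) (κ : Fin ρ → ℤ) (e : Fin ρ → P → ℤ) (ω : MvPolynomial (Fin ρ) ℤ),
      ρ ≤ 2 * k ∧ G ≤ G₀ ∧ ω ≠ 0 ∧ (∀ z ∈ ω.support, ∀ i, z i ≤ G) ∧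
      ∑ z ∈ ω.support, |coeff z ω| ≤ 2 * k ∧ (∀ j, |κ j| ≤ G₀ * M * Q ^ Fintype.card P) ∧
      (∀ j p, Q * |N * e j p - κ j * x p| ≤ G₀ * N) ∧
      (∀ v : Fin ρ → ℤ, (∀ j, |v j| ≤ Φ G) → ∑ j, v j * κ j = 0 → v = 0) ∧
      ∀ v ∈ T, ∀ β : ℝ, 0 ≤ β → (∀ j, D.av v (D.pw (e j)) ≤ Real.exp β) →
        D.av v (aeval (fun j => D.pw (e j)) ω) ≤ Real.exp (ρ * G * β - μ v)

/-- the auxiliary polynomial -/
def RowAUX : Prop :=
  ∀ (ρ G m Y d L : ℕ) (ω : MvPolynomial (Fin ρ) ℤ) (S : Finset (Fin ρ →₀ ℕ)), 1 ≤ m → 1 ≤ d →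
    ω ≠ 0 → (∀ z ∈ ω.support, ∀ i, z i ≤ G) → ∑ z ∈ ω.support, |coeff z ω| ≤ m →
    S ⊆ bx ρ d → (L + 1) * d ^ ρ ≤ L * ((d - G * Y) ^ ρ + S.card) → G * Y < d →
    ∃ H : MvPolynomial (Fin ρ) ℤ, ω ^ Y * H ≠ 0 ∧ (ω ^ Y * H).support ⊆ S ∧
      ∑ z ∈ S, |coeff z (ω ^ Y * H)| ≤ (d ^ ρ * m ^ Y) ^ (L + 2) ∧ H.support ⊆ bx ρ d ∧
      ∑ z ∈ H.support, |coeff z H| ≤ (d ^ ρ * m ^ Y) ^ (L + 2)

/-- smallness of the jets at one place -/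
def RowRAD : Prop :=
  ∀ (K : Type) [Field K] (f : AbsoluteValue K ℝ) (ρ Y G m d S : ℕ) (ω H : MvPolynomial (Fin ρ) ℤ)
    (δ : Fin ρ → K) (ξ : K) (t : Finset (Fin ρ →₀ ℕ)) (s : (Fin ρ →₀ ℕ) → ℕ) (a : Fin ρ → ℕ)
    (β μ w : ℝ), 0 ≤ β → 0 ≤ μ → (∀ j, f (δ j) ≤ Real.exp β) →
    (∀ z ∈ ω.support, ∀ i, z i ≤ G) → ∑ z ∈ ω.support, |coeff z ω| ≤ m →
    f (aeval δ ω) ≤ Real.exp (ρ * G * β - μ) → f (ξ - 1) ≤ Real.exp (-(Y * μ)) →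
    f ξ ≤ Real.exp 1 → G * Y ≤ d → (ω ^ Y * H).support ⊆ t → t ⊆ bx ρ d → H.support ⊆ bx ρ d →
    ∑ z ∈ H.support, |((coeff z H : ℤ) : ℝ)| ≤ Real.exp w →
    ∑ z ∈ t, |((coeff z (ω ^ Y * H) : ℤ) : ℝ)| ≤ Real.exp w → (∀ z ∈ t, s z ≤ S) →
    f (∑ z ∈ t, ((coeff z (ω ^ Y * H) * ∏ j, ((z j).choose (a j) : ℤ) : ℤ) : K) *
      (ξ ^ s z * ∏ j, δ j ^ z j)) ≤
      Real.exp (-(((Y : ℝ) - ∑ j, (a j : ℝ)) * μ) + w + Y * m + 2 * (ρ * d * (β + 1)) + 2 * S + 1)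

/-- vanishing and splitting of sums, by the product formula -/
structure RowSPL : Prop where
  van : ∀ (K V P ι : Type) [Field K] [Fintype V] [Fintype P] (D : Dat K V P) (t : Finset ι)
    (x : P → ℤ) (a b : K) (c : ι → ℤ) (s : ι → ℕ) (f : ι → P → ℤ) (σ : ι → ℝ) (S : ℕ)
    (h w ε σ₀ n : ℝ) (T : Finset V) (B : V → ℝ), D.Trm t x a b c s f σ S h w ε → 0 ≤ n →
    (∀ i ∈ t, σ₀ ≤ σ i ∧ σ i ≤ σ₀ + n) →
    (∀ v ∈ T, D.av v (∑ i ∈ t, c i * ((a / b) ^ s i * D.pw (f i))) ≤ Real.exp (B v)) →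
    Fintype.card V * w + S * h + n * D.Ht x + ε * D.Lam +
      ∑ v ∈ T, (|σ₀| * |D.lg v (D.pw x)| + B v) < 0 →
    ∑ i ∈ t, c i * ((a / b) ^ s i * D.pw (f i)) = 0
  spl : ∀ (K V P ι : Type) [Field K] [Fintype V] [Fintype P] (D : Dat K V P) (t : Finset ι)
    (x : P → ℤ) (a b : K) (c : ι → ℤ) (s : ι → ℕ) (f : ι → P → ℤ) (σ : ι → ℝ) (S : ℕ)
    (h w ε σ₁ γ : ℝ), D.Trm t x a b c s f σ S h w ε → (∀ i ∈ t, σ i ≤ σ₁ ∨ σ₁ + γ ≤ σ i) →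
    ∑ i ∈ t, c i * ((a / b) ^ s i * D.pw (f i)) = 0 →
    Fintype.card V * w + S * h + ε * D.Lam < γ * D.Ht x →
    ∑ i ∈ t with σ i ≤ σ₁, c i * ((a / b) ^ s i * D.pw (f i)) = 0

/-- the contradiction with free parameters -/
def RowCORE : Prop :=
  ∀ (K V P : Type) [Field K] [CharZero K] [Fintype V] [Fintype P] (D : Dat K V P) (x : P → ℤ)
    (a b : K) (h : ℝ) (T : Finset V) (μ : V → ℝ) (Y : ℕ)
    (ρ δ g E G m N d K' ν L L₀ S κ₀ : ℕ) (κ : Fin ρ → ℤ) (e : Fin ρ → P → ℤ)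
    (ω : MvPolynomial (Fin ρ) ℤ) (ε err Λ : ℝ), D.Apx x a b h T μ Y → ZP ρ δ g E →
    ω ≠ 0 → (∀ z ∈ ω.support, ∀ i, z i ≤ G) → ∑ z ∈ ω.support, |coeff z ω| ≤ m → 1 ≤ m →
    (∀ v ∈ T, ∀ β : ℝ, 0 ≤ β → (∀ j, D.av v (D.pw (e j)) ≤ Real.exp β) →
      D.av v (aeval (fun j => D.pw (e j)) ω) ≤ Real.exp (ρ * G * β - μ v)) → (∀ j, |κ j| ≤ κ₀) →
    (∀ j p, |(e j p : ℝ) - κ j / N * x p| ≤ ε) → 0 ≤ ε →
    (∀ v : Fin ρ → ℤ, (∀ i, |v i| ≤ g) → (N : ℤ) ∣ ∑ i, v i * κ i → v = 0) →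
    G * Y < d → d ≤ δ * K' → K' ≤ Y → 1 ≤ ν → E * ν ≤ N → E * ν ≤ K' → 2 * L * ν ≤ N → 1 ≤ N →
    (L₀ + 1) * d ^ ρ * N ≤ L₀ * ((d - G * Y) ^ ρ * N + L * ν * d ^ ρ) → ρ * d * κ₀ ≤ N * S →
    Fintype.card V * ((2 * L₀ + 9) * (ρ * d + Y * m) + 8 * S + 4) + (6 * S + 2) * h +
      4 * (ρ * d * ε) * D.Lam ≤ err → Λ ≤ ∑ v ∈ T, μ v →
    err + 2 * L * ν / N * D.Ht x < (Y - K') * Λ → err < ν / N * D.Ht x → False

/-- approximation to one -/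
def RowGM : Prop :=
  ∀ k u : ℕ, 1 ≤ k → 1 ≤ u → ∃ C : ℝ, 1 ≤ C ∧ ∀ (K V P : Type) [Field K] [CharZero K] [Fintype V]
    [Fintype P] (D : Dat K V P) (x : P → ℤ) (a b : K) (h : ℝ) (T : Finset V) (μ : V → ℝ)
    (Y M q : ℕ) (Λ : ℝ), D.Apx x a b h T μ Y → D.Col x h T μ k q → q < M ^ k → 1 ≤ Λ →
    Λ ≤ ∑ v ∈ T, μ v → C * Fintype.card V ≤ Λ → D.Lam ≤ u * Λ → D.Ht x ≤ u * Y * Λ →
    Y * Λ ≤ u * D.Ht x → Y ≤ C * M * C ^ Fintype.card P * h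

/-! ### Part B: number fields -/

section NF

variable (K : Type) [Field K] [NumberField K]

/-- the primes -/
abbrev Pr : Type := HeightOneSpectrum (𝓞 K)

/-- the embeddings and finitely many primes -/
abbrev Pl (S : Finset (Pr K)) : Type := (K →+* ℂ) ⊕ S

variable {K}

/-- logarithm of the norm -/
noncomputable def lN (p : Pr K) : ℝ := Real.log (Ideal.absNorm p.asIdeal : ℕ)

/-- the absolute values -/
noncomputable def av (S : Finset (Pr K)) : Pl K S → AbsoluteValue K ℝ :=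
  Sum.elim (fun φ => NumberField.place φ) fun p => (FinitePlace.mk p.1).1

theorem av_inl (S : Finset (Pr K)) (φ : K →+* ℂ) (z : K) : av S (Sum.inl φ) z = ‖φ z‖ := rfl

theorem av_inr (S : Finset (Pr K)) (p : S) (z : K) :
    av S (Sum.inr p) z = FinitePlace.mk p.1 z := rfl

/-- the primes outside `S` contribute at most `D` -/
def Def (S : Finset (Pr K)) (D : ℝ) (z : K) : Prop :=
  ∀ U : Finset (Pr K), Disjoint U S → ∑ p ∈ U, |Real.log (FinitePlace.mk p z)| ≤ D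

/-- bounded at a place -/
def Sm {S : Finset (Pr K)} (B : ℝ) (z : K) : Pl K S → Prop :=
  Sum.elim (fun φ => ‖φ z‖ ≤ B) fun p => FinitePlace.mk p.1 z ≤ 1

end NF

/-- product formula and heights -/
def RowPF : Prop :=
  ∀ (K : Type) [Field K] [NumberField K] (S : Finset (Pr K)) (z : K),
    (z ≠ 0 → (∀ p ∉ S, FinitePlace.mk p z ≤ 1) → 0 ≤ ∑ v, Real.log (av S v z)) ∧
    ∑ v, max (Real.log (av S v z)) 0 ≤ Height.logHeight₁ z ∧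
    ∀ D, Def S D z → Height.logHeight₁ z ≤ ∑ v, max (Real.log (av S v z)) 0 + D

/-- balanced generators of powers of primes -/
def RowGEN : Prop :=
  ∀ (K : Type) [Field K] [NumberField K], ∃ (h : ℕ) (c : ℝ), 0 < h ∧ ∀ p : Pr K, ∃ π : 𝓞 K,
    Ideal.span {π} = p.asIdeal ^ h ∧ ∀ φ : K →+* ℂ, |Real.log ‖φ π‖| ≤ c * lN p

/-- decomposition into generators -/
def RowDEC : Prop :=
  ∀ (K : Type) [Field K] [NumberField K], ∃ (H r : ℕ) (c : ℝ) (η : Fin r → Kˣ) (π : Pr K → Kˣ),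
    0 < H ∧ 1 ≤ c ∧ (∀ i (p : Pr K), FinitePlace.mk p (η i : K) = 1) ∧
    (∀ i (φ : K →+* ℂ), |Real.log ‖φ (η i)‖| ≤ c) ∧
    (∀ p p' : Pr K, p' ≠ p → FinitePlace.mk p' (π p : K) = 1) ∧
    (∀ p : Pr K, |Real.log (FinitePlace.mk p (π p : K))| ≤ c * lN p ∧
      ∀ φ : K →+* ℂ, |Real.log ‖φ (π p)‖| ≤ c * lN p) ∧
    ∀ (x : K) (S : Finset (Pr K)) (D : ℝ), x ≠ 0 → Def S D x →
      ∃ (a b : K) (y : Fin r → ℤ) (e : Pr K → ℤ), a ≠ 0 ∧ b ≠ 0 ∧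
        x ^ H = a / b * ((∏ i, η i ^ y i) * ∏ p ∈ S, π p ^ e p : Kˣ).1 ∧
        (∀ p : Pr K, FinitePlace.mk p a ≤ 1 ∧ FinitePlace.mk p b ≤ 1) ∧
        (∀ p : Pr K, p ∈ S ∨ FinitePlace.mk p x = 1 →
          FinitePlace.mk p a = 1 ∧ FinitePlace.mk p b = 1) ∧
        ∀ φ : K →+* ℂ, |Real.log ‖φ a‖| + |Real.log ‖φ b‖| ≤ c * D

/-- residue classes -/
def RowCOLF : Prop :=
  ∀ (K : Type) [Field K] [NumberField K] (T : Finset (Pr K)) (j : Pr K → ℕ), ∃ q : ℕ,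
    (q : ℝ) ≤ Real.exp (∑ p ∈ T, j p * lN p) ∧ ∃ col : K → Fin q, ∀ s s' : K,
      (∀ p ∈ T, FinitePlace.mk p s ≤ 1 ∧ FinitePlace.mk p s' ≤ 1) → col s = col s' →
      ∀ p ∈ T, FinitePlace.mk p (s - s') ≤ Real.exp (-(j p * lN p))

/-- squares in the plane -/
def RowCOLA : Prop :=
  ∀ B r : ℝ, 0 ≤ B → 0 < r → ∃ q : ℕ, (q : ℝ) ≤ (4 * B / r + 2) ^ 2 ∧ ∃ col : ℂ → Fin q,
    ∀ s s' : ℂ, ‖s‖ ≤ B → ‖s'‖ ≤ B → col s = col s' → ‖s - s'‖ ≤ r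

/-- few primes of small norm -/
def RowCNT : Prop :=
  ∀ (K : Type) [Field K] [NumberField K] (c ε : ℝ), 0 < ε → ∃ C : ℝ, 0 ≤ C ∧
    ∀ S : Finset (Pr K), c * S.card ≤ ε * ∑ p ∈ S, lN p + C

/-- approximation to one in a number field -/
def RowMID : Prop :=
  ∀ (K : Type) [Field K] [NumberField K], ∃ H : ℕ, 0 < H ∧ ∀ (ε : ℝ) (u : ℕ), 0 < ε → 1 ≤ u →
    ∃ C₀ C : ℝ, 1 ≤ C₀ ∧ ∀ (x : K) (S : Finset (Pr K)) (D : ℝ) (T : Finset (Pl K S))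
      (μ : Pl K S → ℝ) (Y : ℕ) (Λ : ℝ), Λ = ∑ p ∈ S, lN p + C₀ → x ≠ 0 → Def S D x →
      (∀ v ∈ T, 0 ≤ μ v ∧ av S v (x ^ H - 1) ≤ Real.exp (-(Y * μ v)) ∧
        |Real.log (av S v (x ^ H))| ≤ 1) →
      (∀ p : S, Sum.inr p ∈ T → FinitePlace.mk p.1 x = 1) → Λ ≤ ∑ v ∈ T, μ v →
      (∀ B : ℝ, 1 ≤ B → ∃ q : ℕ, (q : ℝ) ≤ B ^ 2 * Real.exp (u * Λ) ∧ ∃ col : K → Fin q,
        ∀ s s' : K, (∀ v ∈ T, Sm B s v ∧ Sm B s' v) → col s = col s' →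
          ∀ v ∈ T, av S v (s - s') ≤ Real.exp (-μ v)) →
      Height.logHeight₁ x ≤ u * Y * Λ → Y * Λ ≤ u * Height.logHeight₁ x →
      Height.logHeight₁ x ≤ C * (1 + D) * Real.exp (ε * ∑ p ∈ S, lN p)

/-- the theorem -/
def RowABCD : Prop :=
  ∀ (K : Type) [Field K] [NumberField K] (ε : ℝ), 0 < ε → ∃ C : ℝ,
    ∀ (x : K) (S : Finset (HeightOneSpectrum (𝓞 K))) (D : ℝ), x ≠ 0 → x ≠ 1 →
      (∀ U : Finset (HeightOneSpectrum (𝓞 K)), Disjoint U S →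
        ∑ p ∈ U, (|Real.log (FinitePlace.mk p x)| + |Real.log (FinitePlace.mk p (x - 1))|) ≤ D) →
      Height.logHeight₁ x ≤
        C * (1 + D) * Real.exp (ε * ∑ p ∈ S, Real.log (Ideal.absNorm p.asIdeal : ℕ))

end Pool.Agent.MP_542436_nt.H96N
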